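import Pool.Agent.H934R4.GL.Props

/-!
Task G1: the cluster of the first arc.
-/

set_option autoImplicit false

namespace H934G

open H974 hiding bd
open H731C H731R H731A H731G H934E Finset MeasureTheory TopologicalSpace Filter Topology

namespace G1

theorem hline (S : Set Edg) (y : ℤ) (x : ℤ) (k : ℕ)
    (h : ∀ z, x ≤ z → z < x + k → ((z, y, true) : Edg) ∈ S) : Reach S (x, y) (x + k, y) := by
  induction k with
  | zero => simp only [Nat.cast_zero, add_zero]; exact Reach.refl _ _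
  | succ k ih =>
    have h1 := ih (fun z hz1 hz2 => h z hz1 (by push_cast; omega))
    refine h1.trans (Adj.reach ⟨(x + k, y, true), h _ (by omega) (by push_cast; omega), Or.inl ?_⟩)
    refine ⟨rfl, ?_⟩
    rw [tgt_true]
    push_cast
    ring_nf

theorem hline' (S : Set Edg) (y : ℤ) {x x' : ℤ} (hx : x ≤ x')
    (h : ∀ z, x ≤ z → z < x' → ((z, y, true) : Edg) ∈ S) : Reach S (x, y) (x', y) := by
  obtain ⟨k, hk⟩ := Int.eq_ofNat_of_zero_le (sub_nonneg.mpr hx)
  have e : x' = x + k := by omega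
  rw [e]
  exact hline S y x k (fun z h1 h2 => h z h1 (by omega))

theorem vline (S : Set Edg) (x : ℤ) (y : ℤ) (k : ℕ)
    (h : ∀ z, y ≤ z → z < y + k → ((x, z, false) : Edg) ∈ S) : Reach S (x, y) (x, y + k) := by
  induction k with
  | zero => simp only [Nat.cast_zero, add_zero]; exact Reach.refl _ _
  | succ k ih =>
    have h1 := ih (fun z hz1 hz2 => h z hz1 (by push_cast; omega))
    refine h1.trans (Adj.reach ⟨(x, y + k, false), h _ (by omega) (by push_cast; omega), Or.inl ?_⟩)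
    refine ⟨rfl, ?_⟩
    rw [tgt_false]
    push_cast
    ring_nf

theorem vline' (S : Set Edg) (x : ℤ) {y y' : ℤ} (hy : y ≤ y')
    (h : ∀ z, y ≤ z → z < y' → ((x, z, false) : Edg) ∈ S) : Reach S (x, y) (x, y') := by
  obtain ⟨k, hk⟩ := Int.eq_ofNat_of_zero_le (sub_nonneg.mpr hy)
  have e : y' = y + k := by omega
  rw [e]
  exact vline S x y k (fun z h1 h2 => h z h1 (by omega))

/-- translation of an edge -/
theorem adj_sh {k : ℤ} {F : Finset Edg} {u v : Vtx} (h : Adj (↑(sh k F)) u v) :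
    Adj (↑F) (u.1 + k, u.2) (v.1 + k, v.2) := by
  obtain ⟨e, he, h⟩ := h
  unfold sh at he
  rw [Finset.mem_coe, Finset.mem_image] at he
  obtain ⟨⟨x, y, b⟩, hf, rfl⟩ := he
  refine ⟨(x, y, b), hf, ?_⟩
  obtain ⟨u1, u2⟩ := u
  obtain ⟨v1, v2⟩ := v
  cases b
  · simp only [src_mk, tgt_false, Prod.mk.injEq] at h ⊢
    omega
  · simp only [src_mk, tgt_true, Prod.mk.injEq] at h ⊢
    omega

theorem adj_sh' {k a b c d : ℤ} {F : Finset Edg} (hF : F ⊆ RE (a + k) (b + k) c d) {u v : Vtx}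
    (h : Adj (↑F) u v) :
    Adj (↑(sh k F) ∩ ↑(RE a b c d)) (u.1 - k, u.2) (v.1 - k, v.2) := by
  obtain ⟨⟨x, y, e⟩, he, h⟩ := h
  have he' := hF he
  refine ⟨(x - k, y, e), ⟨?_, ?_⟩, ?_⟩
  · unfold sh
    rw [Finset.mem_coe, Finset.mem_image]
    exact ⟨(x, y, e), he, rfl⟩
  · cases e
    · rw [mem_RE_false] at he'
      rw [mem_coe, mem_RE_false]
      omega
    · rw [mem_RE_true] at he'
      rw [mem_coe, mem_RE_true]
      omega
  · obtain ⟨u1, u2⟩ := u
    obtain ⟨v1, v2⟩ := v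
    cases e
    · simp only [src_mk, tgt_false, Prod.mk.injEq] at h ⊢
      omega
    · simp only [src_mk, tgt_true, Prod.mk.injEq] at h ⊢
      omega

theorem reach_sh {k : ℤ} {F : Finset Edg} {S : Set Edg} {u v : Vtx}
    (h : Reach (↑(sh k F) ∩ S) u v) : Reach (↑F) (u.1 + k, u.2) (v.1 + k, v.2) := by
  induction h with
  | refl => exact Reach.refl _ _
  | tail _ hs ih => exact ih.trans (adj_sh (hs.mono Set.inter_subset_left)).reach

/-- a vertex of the arc -/
theorem arc_top {m n a b x : ℤ} (hm : 1 ≤ m) (hn : 1 ≤ n) (hx : 0 ≤ x) (hxm : x ≤ m)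
    (ha : a ≤ -(n + x)) (hb : 0 ≤ b) : ∃ i, (a ≤ i ∧ i ≤ b) ∧ bd m n i = (x, n) := by
  refine ⟨-(n + x), ⟨ha, by omega⟩, ?_⟩
  rw [← bd_period m n (-(n + x)) 1, bd_top hm hn (by omega) (by omega)]
  ext
  · show 2 * m + n - (-(n + x) + 1 * (2 * (m + n))) = x; ring
  · rfl

theorem arc_left {m n a b y : ℤ} (hm : 1 ≤ m) (hn : 1 ≤ n) (hy : 0 ≤ y) (hyn : y ≤ n)
    (ha : a ≤ -n) (hb : 0 ≤ b) : ∃ i, (a ≤ i ∧ i ≤ b) ∧ bd m n i = (0, y) := by
  refine ⟨-y, ⟨by omega, by omega⟩, ?_⟩
  rw [bd_neg hm hn (by omega) (by omega), neg_neg]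

theorem arc_bot {m n a b x : ℤ} (hm : 1 ≤ m) (hn : 1 ≤ n) (hx : 0 ≤ x) (hxm : x ≤ m)
    (ha : a ≤ 0) (hb : x ≤ b) : ∃ i, (a ≤ i ∧ i ≤ b) ∧ bd m n i = (x, 0) :=
  ⟨x, ⟨by omega, hb⟩, bd_bot hm hn hx hxm⟩

end G1

open G1 in
theorem g1 : St_G1 := by
  intro R δ hS F hF v hv1 hv2
  obtain ⟨hδ, h1, h2, h3, h4, h5⟩ := hS
  have hF' : F ⊆ RE (0 + R.x0 δ) (gm R δ + R.x0 δ) 0 (gn R δ) := by
    rw [Rect.edges_eq] at hF
    unfold gm gn
    simpa using hF
  have hm : 1 ≤ gm R δ := by unfold gm; omega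
  have hn : 1 ≤ gn R δ := by unfold gn; omega
  constructor
  · intro hv
    have key : ∀ w, Reach (↑F ∪ R.wired δ) (0, 0) w →
        VA (gm R δ) (gn R δ) (ga R δ) (gb R δ) (w.1 - R.x0 δ, w.2) (sh (R.x0 δ) F) := by
      intro w hw
      induction hw with
      | refl =>
        obtain ⟨i, hi, hb⟩ := arc_bot (m := gm R δ) (n := gn R δ) (a := ga R δ) (b := gb R δ)
          (x := 0 - R.x0 δ) hm hn (by omega) (by unfold gm; omega)
          (by unfold ga; omega) (by unfold gb; omega)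
        exact ⟨i, hi, by rw [hb]; exact Reach.refl _ _⟩
      | tail _ hs ih =>
        rename_i w1 w2 _
        obtain ⟨e, he, hc⟩ := hs
        rcases he with he | he
        · -- an edge of `F`
          obtain ⟨i, hi, hr⟩ := ih
          have h6 : Adj (↑F) w1 w2 := ⟨e, he, hc⟩
          exact ⟨i, hi, hr.trans (adj_sh' hF' h6).reach⟩
        · -- a wired edge
          have h7 : ∃ i, (ga R δ ≤ i ∧ i ≤ gb R δ) ∧
              bd (gm R δ) (gn R δ) i = (w2.1 - R.x0 δ, w2.2) := by
            obtain ⟨x, y, b⟩ := e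
            obtain ⟨p1, p2⟩ := w1
            obtain ⟨q1, q2⟩ := w2
            simp only [Rect.wired, Set.mem_ofPred_eq] at he
            rcases he with ⟨rfl, he1, he2, he3⟩ | ⟨rfl, he1, he2, he3⟩ | ⟨rfl, he1, he2, he3⟩
            · simp only [src_mk, tgt_true, Prod.mk.injEq] at hc
              have e1 : q2 = gn R δ := by unfold gn; omega
              rw [e1]
              exact arc_top hm hn (by omega) (by unfold gm; omega)
                (by unfold ga gn; omega) (by unfold gb; omega)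
            · simp only [src_mk, tgt_false, Prod.mk.injEq] at hc
              have e1 : q1 - R.x0 δ = 0 := by omega
              simp only [e1]
              exact arc_left hm hn (by omega) (by unfold gn; omega)
                (by unfold ga gn; omega) (by unfold gb; omega)
            · simp only [src_mk, tgt_true, Prod.mk.injEq] at hc
              have e1 : q2 = 0 := by omega
              rw [e1]
              exact arc_bot hm hn (by omega) (by unfold gm; omega)
                (by unfold ga; omega) (by unfold gb; omega)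
          obtain ⟨i, hi, hb⟩ := h7
          exact ⟨i, hi, by rw [hb]; exact Reach.refl _ _⟩
    exact key v hv
  · rintro ⟨i, hi, hr⟩
    show Reach (↑F ∪ R.wired δ) (0, 0) v
    have h6 := reach_sh hr
    have h7 : ((v.1 - R.x0 δ, v.2).1 + R.x0 δ, (v.1 - R.x0 δ, v.2).2) = v := by
      ext
      · show v.1 - R.x0 δ + R.x0 δ = v.1; ring
      · rfl
    rw [h7] at h6
    refine Reach.trans ?_ (h6.mono Set.subset_union_left)
    -- the arc is reached
    have hbot : ∀ x, R.x0 δ ≤ x → x ≤ 0 → Reach (↑F ∪ R.wired δ) (0, 0) (x, 0) := by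
      intro x hx1 hx2
      refine (hline' _ 0 hx2 (fun z hz1 hz2 => Or.inr ?_)).symm
      right; right
      exact ⟨rfl, rfl, by show R.x0 δ ≤ z; omega, hz2⟩
    have hleft : ∀ y, 0 ≤ y → y ≤ R.y1 δ → Reach (↑F ∪ R.wired δ) (0, 0) (R.x0 δ, y) := by
      intro y hy1 hy2
      refine (hbot (R.x0 δ) le_rfl (by omega)).trans (vline' _ _ hy1 (fun z hz1 hz2 => Or.inr ?_))
      right; left
      exact ⟨rfl, rfl, hz1, by show z < R.y1 δ; omega⟩
    have htop : ∀ x, R.x0 δ ≤ x → x ≤ R.tc δ → Reach (↑F ∪ R.wired δ) (0, 0) (x, R.y1 δ) := by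
      intro x hx1 hx2
      refine (hleft (R.y1 δ) (by omega) le_rfl).trans (hline' _ _ hx1 (fun z hz1 hz2 => Or.inr ?_))
      left
      exact ⟨rfl, rfl, hz1, by show z < R.tc δ; omega⟩
    rcases le_or_gt 0 i with hi0 | hi0
    · rw [bd_bot hm hn hi0 (by unfold gb at hi; unfold gm; omega)]
      exact hbot (i + R.x0 δ) (by omega) (by unfold gb at hi; omega)
    · rcases le_or_gt (-(gn R δ)) i with hi1 | hi1
      · rw [bd_neg hm hn hi1 hi0.le]
        show Reach _ _ (0 + R.x0 δ, -i)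
        rw [zero_add]
        exact hleft (-i) (by omega) (by unfold gn at hi1; omega)
      · have hga : ga R δ ≤ i := hi.1
        unfold ga at hga
        rw [← bd_period (gm R δ) (gn R δ) i 1, bd_top hm hn (by unfold gm gn at *; omega)
          (by unfold gm gn at *; omega)]
        have e1 : (2 * gm R δ + gn R δ - (i + 1 * (2 * (gm R δ + gn R δ)))) + R.x0 δ =
            -(gn R δ) - i + R.x0 δ := by ring
        show Reach _ _ ((2 * gm R δ + gn R δ - (i + 1 * (2 * (gm R δ + gn R δ)))) + R.x0 δ, gn R δ)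
        rw [e1]
        exact htop _ (by unfold gn at *; omega) (by unfold gn at *; omega)

end H934G
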