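import Pool.Agent.H934R4.GL.Props

/-!
G2: the dual cluster of the second arc, inner faces.
-/

set_option autoImplicit false

namespace H934G

open H974 hiding bd
open H731C H731R H731A H731G H934E Finset MeasureTheory TopologicalSpace Filter Topology

theorem G2_mem_sh {k : ℤ} {F : Finset Edg} {x y : ℤ} {b : Bool} :
    ((x - k, y, b) : Edg) ∈ sh k F ↔ (x, y, b) ∈ F := by
  unfold sh
  rw [Finset.mem_image]
  constructor
  · rintro ⟨⟨x', y', b'⟩, h, he⟩
    simp only [Prod.mk.injEq] at he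
    obtain ⟨h1, h2, h3⟩ := he
    have h4 : x' = x := by omega
    rw [← h4, ← h2, ← h3]
    exact h
  · intro h
    exact ⟨(x, y, b), h, rfl⟩

/-- the edges of `G0` -/
def G2_A (x0 x1 y1 : ℤ) (F : Finset Edg) : Set Edg := (↑(RE x0 x1 0 y1) : Set Edg) \ ↑F

/-- the translated edges -/
def G2_B (x0 x1 y1 : ℤ) (F : Finset Edg) : Set Edg :=
  ((↑(sh x0 F) : Set Edg)ᶜ ∩ ↑(RE 0 (x1 - x0) 0 y1))

theorem G2_mem {x0 x1 y1 : ℤ} {F : Finset Edg} {x y : ℤ} {b : Bool} :
    ((x - x0, y, b) : Edg) ∈ G2_B x0 x1 y1 F ↔ ((x, y, b) : Edg) ∈ G2_A x0 x1 y1 F := by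
  unfold G2_A G2_B
  rw [Set.mem_inter_iff, Set.mem_compl_iff, Set.mem_sdiff, Finset.mem_coe, Finset.mem_coe,
    Finset.mem_coe, Finset.mem_coe, G2_mem_sh]
  cases b
  · rw [mem_RE_false, mem_RE_false]
    constructor
    · rintro ⟨h1, h2⟩
      exact ⟨by omega, h1⟩
    · rintro ⟨h1, h2⟩
      exact ⟨h2, by omega⟩
  · rw [mem_RE_true, mem_RE_true]
    constructor
    · rintro ⟨h1, h2⟩
      exact ⟨by omega, h1⟩
    · rintro ⟨h1, h2⟩
      exact ⟨h2, by omega⟩

theorem G2_dadj1 {x0 x1 y1 : ℤ} {F : Finset Edg} {u v : Vtx}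
    (h : DAdj (G2_A x0 x1 y1 F) u v) : DAdj (G2_B x0 x1 y1 F) (u.1 - x0, u.2) (v.1 - x0, v.2) := by
  obtain ⟨⟨x, y, b⟩, he, h⟩ := h
  refine ⟨(x - x0, y, b), G2_mem.2 he, ?_⟩
  rcases h with ⟨rfl, rfl⟩ | ⟨rfl, rfl⟩
  · left
    cases b
    · simp only [dsrc_false, dtgt_mk, Prod.mk.injEq, and_true]; omega
    · simp only [dsrc_true, dtgt_mk, and_true]
  · right
    cases b
    · simp only [dsrc_false, dtgt_mk, Prod.mk.injEq, and_true]; omega
    · simp only [dsrc_true, dtgt_mk, and_true]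

theorem G2_dadj2 {x0 x1 y1 : ℤ} {F : Finset Edg} {u v : Vtx}
    (h : DAdj (G2_B x0 x1 y1 F) u v) : DAdj (G2_A x0 x1 y1 F) (u.1 + x0, u.2) (v.1 + x0, v.2) := by
  obtain ⟨⟨x, y, b⟩, he, h⟩ := h
  refine ⟨(x + x0, y, b), G2_mem.1 (by rw [add_sub_cancel_right]; exact he), ?_⟩
  rcases h with ⟨rfl, rfl⟩ | ⟨rfl, rfl⟩
  · left
    cases b
    · simp only [dsrc_false, dtgt_mk, Prod.mk.injEq, and_true]; omega
    · simp only [dsrc_true, dtgt_mk, and_true]
  · right
    cases b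
    · simp only [dsrc_false, dtgt_mk, Prod.mk.injEq, and_true]; omega
    · simp only [dsrc_true, dtgt_mk, and_true]

theorem G2_dr1 {x0 x1 y1 : ℤ} {F : Finset Edg} {u v : Vtx}
    (h : DReach (G2_A x0 x1 y1 F) u v) :
    DReach (G2_B x0 x1 y1 F) (u.1 - x0, u.2) (v.1 - x0, v.2) :=
  Relation.ReflTransGen.lift (fun u : Vtx => ((u.1 - x0, u.2) : Vtx))
    (fun _ _ h => G2_dadj1 h) _ _ h

theorem G2_dr2 {x0 x1 y1 : ℤ} {F : Finset Edg} {u v : Vtx}
    (h : DReach (G2_B x0 x1 y1 F) u v) :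
    DReach (G2_A x0 x1 y1 F) (u.1 + x0, u.2) (v.1 + x0, v.2) :=
  Relation.ReflTransGen.lift (fun u : Vtx => ((u.1 + x0, u.2) : Vtx))
    (fun _ _ h => G2_dadj2 h) _ _ h

/-- inner faces -/
def G2_in (x0 x1 y1 : ℤ) (h : Vtx) : Prop := (x0 ≤ h.1 ∧ h.1 < x1) ∧ (0 ≤ h.2 ∧ h.2 < y1)

/-- an edge has an inner side -/
theorem G2_side {x0 x1 y1 : ℤ} (hx : x0 < x1) (hy : 0 < y1) {F : Finset Edg} {u v : Vtx}
    (h : DAdj (G2_A x0 x1 y1 F) u v) : G2_in x0 x1 y1 u ∨ G2_in x0 x1 y1 v := by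
  obtain ⟨⟨x, y, b⟩, ⟨hR, -⟩, h⟩ := h
  unfold G2_in
  rcases h with ⟨rfl, rfl⟩ | ⟨rfl, rfl⟩
  all_goals
    cases b
    · rw [Finset.mem_coe, mem_RE_false] at hR
      simp only [dsrc_false, dtgt_mk]; omega
    · rw [Finset.mem_coe, mem_RE_true] at hR
      simp only [dsrc_true, dtgt_mk]; omega

/-- an outer face has a unique neighbour -/
theorem G2_uniq {x0 x1 y1 : ℤ} {F : Finset Edg} {u v w : Vtx}
    (hv : ¬ G2_in x0 x1 y1 v) (h : DAdj (G2_A x0 x1 y1 F) u v)
    (h' : DAdj (G2_A x0 x1 y1 F) v w) : w = u := by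
  obtain ⟨⟨x, y, b⟩, ⟨hR, -⟩, h⟩ := h
  obtain ⟨⟨x', y', b'⟩, ⟨hR', -⟩, h'⟩ := h'
  unfold G2_in at hv
  rw [Finset.mem_coe] at hR hR'
  cases b <;> cases b' <;>
    simp only [mem_RE_false, mem_RE_true, dsrc_false, dsrc_true, dtgt_mk] at hR hR' h h' <;>
    rcases h with ⟨h1, h2⟩ | ⟨h1, h2⟩ <;> rcases h' with ⟨h3, h4⟩ | ⟨h3, h4⟩ <;>
    (have e1 := congrArg Prod.fst h1
     have e2 := congrArg Prod.snd h1
     have e3 := congrArg Prod.fst h2
     have e4 := congrArg Prod.snd h2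
     have e5 := congrArg Prod.fst h3
     have e6 := congrArg Prod.snd h3
     have e7 := congrArg Prod.fst h4
     have e8 := congrArg Prod.snd h4
     simp only at e1 e2 e3 e4 e5 e6 e7 e8
     apply Prod.ext <;> omega)

variable {R : Rect} {δ : ℝ} {F : Finset Edg}

theorem G2_dclu_of (hs : Small R δ) {g h : Vtx} (hg : g ∈ R.outer δ)
    (hr : DReach (G2_A (R.x0 δ) (R.x1 δ) (R.y1 δ) F) g h) :
    (G2_in (R.x0 δ) (R.x1 δ) (R.y1 δ) h → h ∈ R.dclu δ F) ∧
      (¬ G2_in (R.x0 δ) (R.x1 δ) (R.y1 δ) h → h ∈ R.outer δ ∨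
        ∀ w, DAdj (G2_A (R.x0 δ) (R.x1 δ) (R.y1 δ) F) h w → w ∈ R.dclu δ F) := by
  obtain ⟨-, h0, h1, h2, h3, h4⟩ := hs
  induction hr with
  | refl =>
    refine ⟨fun hin => ?_, fun _ => Or.inl hg⟩
    exfalso
    unfold G2_in at hin
    simp only [Rect.outer, Set.mem_ofPred_eq] at hg
    omega
  | @tail h k hgh hk ih =>
    have hsd := G2_side (by omega) (by omega) hk
    by_cases hin : G2_in (R.x0 δ) (R.x1 δ) (R.y1 δ) h
    · have hd := ih.1 hin
      refine ⟨fun hkin => ?_, fun hkout => Or.inr fun w hw => ?_⟩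
      · obtain ⟨g', hg', hr'⟩ := hd
        refine ⟨g', hg', Relation.ReflTransGen.tail hr' ?_⟩
        obtain ⟨⟨x, y, b⟩, ⟨hR, hF⟩, he⟩ := hk
        refine ⟨(x, y, b), ⟨by rw [R.edges_eq]; exact hR, ?_⟩, he⟩
        rintro (h5 | h5)
        · exact hF h5
        · unfold G2_in at hin hkin
          rw [Finset.mem_coe] at hR
          simp only [Rect.wired, Set.mem_ofPred_eq] at h5
          cases b
          · simp only [mem_RE_false, dsrc_false, dtgt_mk] at hR he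
            simp only [Bool.false_eq_true, false_and, true_and, false_or, or_false] at h5
            rcases he with ⟨rfl, rfl⟩ | ⟨rfl, rfl⟩
            · simp only at hin hkin; omega
            · simp only at hin hkin; omega
          · simp only [mem_RE_true, dsrc_true, dtgt_mk] at hR he
            simp only [Bool.true_eq_false, false_and, true_and, false_or] at h5
            rcases he with ⟨rfl, rfl⟩ | ⟨rfl, rfl⟩
            · simp only at hin hkin; omega
            · simp only at hin hkin; omega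
      · rw [G2_uniq hkout hk hw]
        exact hd
    · have hkin : G2_in (R.x0 δ) (R.x1 δ) (R.y1 δ) k := hsd.resolve_left hin
      refine ⟨fun _ => ?_, fun hkout => absurd hkin hkout⟩
      rcases ih.2 hin with h5 | h5
      · refine ⟨h, h5, Relation.ReflTransGen.single ?_⟩
        obtain ⟨⟨x, y, b⟩, ⟨hR, hF⟩, he⟩ := hk
        refine ⟨(x, y, b), ⟨by rw [R.edges_eq]; exact hR, ?_⟩, he⟩
        rintro (h6 | h6)
        · exact hF h6
        · unfold G2_in at hkin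
          rw [Finset.mem_coe] at hR
          simp only [Rect.wired, Set.mem_ofPred_eq] at h6
          simp only [Rect.outer, Set.mem_ofPred_eq] at h5
          cases b
          · simp only [mem_RE_false, dsrc_false, dtgt_mk] at hR he
            simp only [Bool.false_eq_true, false_and, true_and, false_or, or_false] at h6
            rcases he with ⟨rfl, rfl⟩ | ⟨rfl, rfl⟩
            · simp only at h5 hkin; omega
            · simp only at h5 hkin; omega
          · simp only [mem_RE_true, dsrc_true, dtgt_mk] at hR he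
            simp only [Bool.true_eq_false, false_and, true_and, false_or] at h6
            rcases he with ⟨rfl, rfl⟩ | ⟨rfl, rfl⟩
            · simp only at h5 hkin; omega
            · simp only at h5 hkin; omega
      · exact h5 k hk

/-- a corner face has no neighbour -/
theorem G2_corner (hs : Small R δ) {y : ℤ} (hy : y = -1 ∨ y = R.y1 δ) {k : Vtx}
    (h : DReach (G2_A (R.x0 δ) (R.x1 δ) (R.y1 δ) F) (R.x1 δ, y) k) : k = (R.x1 δ, y) := by
  obtain ⟨-, h0, h1, h2, h3, h4⟩ := hs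
  rcases Relation.ReflTransGen.cases_head h with h5 | ⟨w, h5, _⟩
  · exact h5.symm
  · exfalso
    obtain ⟨⟨x, y', b⟩, ⟨hR, hF⟩, he⟩ := h5
    rw [Finset.mem_coe] at hR
    cases b
    · simp only [mem_RE_false, dsrc_false, dtgt_mk, Prod.mk.injEq] at hR he
      rcases he with ⟨⟨h6, h7⟩, h8⟩ | ⟨h8, ⟨h6, h7⟩⟩ <;> omega
    · simp only [mem_RE_true, dsrc_true, dtgt_mk, Prod.mk.injEq] at hR he
      rcases he with ⟨⟨h6, h7⟩, h8⟩ | ⟨h8, ⟨h6, h7⟩⟩ <;> omega

theorem g2 : St_G2 := by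
  intro R δ hs F _ f hf1 hf2
  have hs' := hs
  obtain ⟨-, h0, h1, h2, h3, h4⟩ := hs'
  have hin : G2_in (R.x0 δ) (R.x1 δ) (R.y1 δ) f := ⟨hf1, hf2⟩
  constructor
  · rintro ⟨g, hg, hr⟩
    have hr2 : DReach (G2_A (R.x0 δ) (R.x1 δ) (R.y1 δ) F) g f := by
      refine DReach.mono ?_ hr
      rintro e ⟨he1, he2⟩
      refine ⟨by rw [← R.edges_eq]; exact he1, fun h => he2 (Or.inl h)⟩
    have key : ∃ j, (gb R δ ≤ j ∧ j < ga R δ + 2 * (gm R δ + gn R δ)) ∧
        ofc (gm R δ) (gn R δ) j = (g.1 - R.x0 δ, g.2) := by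
      have hc : ¬ (g.1 = R.x1 δ ∧ (g.2 = -1 ∨ g.2 = R.y1 δ)) := by
        rintro ⟨h5, h6⟩
        have h7 : g = (R.x1 δ, g.2) := Prod.ext h5 rfl
        rw [h7] at hr2
        have h8 := G2_corner hs h6 hr2
        rw [h8] at hf1
        simp only at hf1
        omega
      unfold gb ga gm gn
      simp only [Rect.outer, Set.mem_ofPred_eq] at hg
      have hcase : (g.2 = -1 ∧ 0 ≤ g.1 ∧ g.1 < R.x1 δ) ∨
          (g.1 = R.x1 δ ∧ 0 ≤ g.2 ∧ g.2 < R.y1 δ) ∨
          (g.2 = R.y1 δ ∧ R.tc δ ≤ g.1 ∧ g.1 < R.x1 δ) := by omega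
      rcases hcase with ⟨h5, h6, h7⟩ | ⟨h5, h6, h7⟩ | ⟨h5, h6, h7⟩
      · refine ⟨g.1 - R.x0 δ, ⟨by omega, by omega⟩, ?_⟩
        unfold ofc
        rw [Int.emod_eq_of_lt (by omega) (by omega), if_pos (by omega), h5]
      · refine ⟨R.x1 δ - R.x0 δ + g.2, ⟨by omega, by omega⟩, ?_⟩
        unfold ofc
        rw [Int.emod_eq_of_lt (by omega) (by omega), if_neg (by omega), if_pos (by omega), h5]
        ext
        · rfl
        · simp only; omega
      · refine ⟨2 * (R.x1 δ - R.x0 δ) + R.y1 δ - 1 - (g.1 - R.x0 δ), ⟨by omega, by omega⟩, ?_⟩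
        unfold ofc
        rw [Int.emod_eq_of_lt (by omega) (by omega), if_neg (by omega), if_neg (by omega),
          if_pos (by omega), h5]
        ext
        · simp only; omega
        · rfl
    obtain ⟨j, hj, he⟩ := key
    refine ⟨j, hj, ?_⟩
    rw [he]
    exact G2_dr1 hr2
  · rintro ⟨j, hj, hr⟩
    have hr2 := G2_dr2 (x0 := R.x0 δ) (x1 := R.x1 δ) (y1 := R.y1 δ) (F := F) hr
    simp only [sub_add_cancel] at hr2
    refine (G2_dclu_of hs (g := ((ofc (gm R δ) (gn R δ) j).1 + R.x0 δ,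
      (ofc (gm R δ) (gn R δ) j).2)) ?_ hr2).1 hin
    unfold gb ga gm gn at hj
    unfold gm gn ofc
    simp only [Rect.outer, Set.mem_ofPred_eq]
    rw [Int.emod_eq_of_lt (by omega) (by omega)]
    split_ifs with h5 h6 h7
    · left; simp only [true_and]; omega
    · right; left; simp only; omega
    · right; right; simp only [true_and]; omega
    · exfalso; omega

end H934G
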