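import Pool.Agent.H934R4.GL.Props

/-!
Task G3 (project of helper934): transfer of the probability (helper819).
-/

set_option autoImplicit false

namespace H934G

open H974 hiding bd
open H731C H731R H731A H731G H934E Finset MeasureTheory TopologicalSpace Filter Topology

namespace G3

/-- translation of the edges by `k` columns -/
def tr (k : ℤ) : Edg ↪ Edg :=
  ⟨fun e => (e.1 + k, e.2), by
    intro e e' h
    have h0 : ((e.1 + k, e.2) : Edg) = (e'.1 + k, e'.2) := h
    have h1 := (Prod.mk.inj h0).1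
    have h2 := (Prod.mk.inj h0).2
    exact Prod.ext (by omega) h2⟩

theorem tr_apply (k : ℤ) (e : Edg) : tr k e = (e.1 + k, e.2) := rfl

theorem map_RE (x0 x1 n : ℤ) : (RE 0 (x1 - x0) 0 n).map (tr x0) = RE x0 x1 0 n := by
  ext e
  obtain ⟨x, y, b⟩ := e
  rw [Finset.mem_map]
  constructor
  · rintro ⟨⟨x', y', b'⟩, h, he⟩
    rw [tr_apply] at he
    obtain ⟨h1, h2, h3⟩ : x' + x0 = x ∧ y' = y ∧ b' = b := by
      simpa [Prod.mk.injEq] using he
    subst h1 h2 h3
    cases b'
    · rw [mem_RE_false] at h ⊢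
      omega
    · rw [mem_RE_true] at h ⊢
      omega
  · intro h
    refine ⟨(x - x0, y, b), ?_, ?_⟩
    · cases b
      · rw [mem_RE_false] at h ⊢
        omega
      · rw [mem_RE_true] at h ⊢
        omega
    · rw [tr_apply]
      simp

theorem sh_map (k : ℤ) (F : Finset Edg) : sh k (F.map (tr k)) = F := by
  unfold sh
  ext e
  rw [Finset.mem_image]
  constructor
  · rintro ⟨e', he', rfl⟩
    rw [Finset.mem_map] at he'
    obtain ⟨e'', he'', rfl⟩ := he'
    rw [tr_apply]
    simpa using he''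
  · intro h
    refine ⟨tr k e, Finset.mem_map_of_mem _ h, ?_⟩
    rw [tr_apply]
    simp

end G3

open G3 in
theorem g3 : St_G3 := by
  intro h1 h2 R δ hs v r hr hI
  rw [R.edges_eq, ← map_RE]
  unfold P2
  rw [Pr_map]
  unfold gm gn
  apply Pr_congr
  intro F hF
  have hF' : F.map (tr (R.x0 δ)) ⊆ R.edges δ := by
    rw [R.edges_eq, ← map_RE]
    exact Finset.map_subset_map.mpr hF
  have k1 := h1 R δ hs _ hF'
  have k2 := h2 R δ hs _ hF'
  rw [sh_map] at k1 k2
  unfold gm gn at k1 k2
  obtain ⟨⟨i1, i2⟩, i3, i4⟩ := hI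
  constructor
  · rintro ⟨u, ⟨hu1, hu2⟩, hc, s, hd⟩
    rw [abs_le] at hu1 hu2
    refine ⟨(u.1 - R.x0 δ, u.2), ⟨?_, ?_⟩, ?_, ((cface u s).1 - R.x0 δ, (cface u s).2), ?_⟩
    · rw [abs_le]; constructor <;> dsimp only <;> omega
    · rw [abs_le]; constructor <;> dsimp only <;> omega
    · exact (k1 u (by omega) (by omega)).mp hc
    · have hcf : ((cface u s).1 = u.1 ∨ (cface u s).1 = u.1 - 1) ∧
          ((cface u s).2 = u.2 ∨ (cface u s).2 = u.2 - 1) := cor_cface u s
      refine ⟨⟨?_, ?_⟩, ?_⟩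
      · dsimp only; omega
      · dsimp only; omega
      · exact (k2 (cface u s) (by omega) (by omega)).mp hd
  · rintro ⟨u, ⟨hu1, hu2⟩, hc, f, hf, hd⟩
    rw [abs_le] at hu1 hu2
    dsimp only at hu1 hu2
    obtain ⟨hf1, hf2⟩ := hf
    have e1 : ((u.1 + R.x0 δ, u.2) : Vtx).1 - R.x0 δ = u.1 := by dsimp only; omega
    have hc' := k1 (u.1 + R.x0 δ, u.2) (by dsimp only; omega) (by dsimp only; omega)
    rw [e1] at hc'
    have hd' := k2 (f.1 + R.x0 δ, f.2) (by dsimp only; omega) (by dsimp only; omega)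
    have e2 : ((f.1 + R.x0 δ, f.2) : Vtx).1 - R.x0 δ = f.1 := by dsimp only; omega
    rw [e2] at hd'
    refine ⟨(u.1 + R.x0 δ, u.2), ⟨?_, ?_⟩, ?_, ?_⟩
    · rw [abs_le]; constructor <;> dsimp only <;> omega
    · rw [abs_le]; constructor <;> dsimp only <;> omega
    · exact hc'.mpr hc
    · refine ⟨(decide (f.1 = u.1), decide (f.2 = u.2)), ?_⟩
      have e3 : cface (u.1 + R.x0 δ, u.2) (decide (f.1 = u.1), decide (f.2 = u.2)) =
          (f.1 + R.x0 δ, f.2) := by
        unfold cface
        refine Prod.ext ?_ ?_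
        · dsimp only
          by_cases h : f.1 = u.1
          · rw [decide_eq_true h, if_pos rfl]; omega
          · rw [decide_eq_false h, if_neg (by simp)]; omega
        · dsimp only
          by_cases h : f.2 = u.2
          · rw [decide_eq_true h, if_pos rfl]; omega
          · rw [decide_eq_false h, if_neg (by simp)]; omega
      rw [e3]
      exact hd'.mpr hd

end H934G
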