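import Pool.Agent.H934R4.GL.Props

/-!
G4: the cross-ratio `HH` converges, and its limit is comparable to `Th` (helper802).
-/

set_option autoImplicit false

namespace H934G

open H974 hiding bd
open H731C H731R H731A H731G H934E Finset MeasureTheory TopologicalSpace Filter Topology

namespace G4aux

/-- scaled limit -/
def SL (f : ℝ → ℤ) (c : ℝ) : Prop := Tendsto (fun δ : ℝ => δ * (f δ : ℝ)) (𝓝[>] 0) (𝓝 c)

theorem pos_ev : ∀ᶠ δ in 𝓝[>] (0 : ℝ), 0 < δ := self_mem_nhdsWithin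

theorem SL.floor (c : ℝ) : SL (fun δ => ⌊c / δ⌋) c := by
  have h1 : Tendsto (fun δ : ℝ => c - δ) (𝓝[>] 0) (𝓝 c) := by
    have h : Tendsto (fun δ : ℝ => c - δ) (𝓝 0) (𝓝 (c - 0)) :=
      tendsto_const_nhds.sub tendsto_id
    rw [sub_zero] at h
    exact h.mono_left nhdsWithin_le_nhds
  refine tendsto_of_tendsto_of_tendsto_of_le_of_le' h1 tendsto_const_nhds ?_ ?_
  · filter_upwards [pos_ev] with δ hδ
    have h := Int.lt_floor_add_one (c / δ)
    rw [div_lt_iff₀ hδ] at h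
    nlinarith
  · filter_upwards [pos_ev] with δ hδ
    have h := Int.floor_le (c / δ)
    rw [le_div_iff₀ hδ] at h
    linarith

theorem SL.ceil (c : ℝ) : SL (fun δ => ⌈c / δ⌉) c := by
  have h1 : Tendsto (fun δ : ℝ => c + δ) (𝓝[>] 0) (𝓝 c) := by
    have h : Tendsto (fun δ : ℝ => c + δ) (𝓝 0) (𝓝 (c + 0)) :=
      tendsto_const_nhds.add tendsto_id
    rw [add_zero] at h
    exact h.mono_left nhdsWithin_le_nhds
  refine tendsto_of_tendsto_of_tendsto_of_le_of_le' tendsto_const_nhds h1 ?_ ?_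
  · filter_upwards [pos_ev] with δ hδ
    have h := Int.le_ceil (c / δ)
    rw [div_le_iff₀ hδ] at h
    linarith
  · filter_upwards [pos_ev] with δ hδ
    have h := Int.ceil_lt_add_one (c / δ)
    have h2 : (⌈c / δ⌉ : ℝ) - 1 < c / δ := by linarith
    rw [lt_div_iff₀ hδ] at h2
    nlinarith

theorem SL.const (k : ℤ) : SL (fun _ => k) 0 := by
  have h : Tendsto (fun δ : ℝ => δ * (k : ℝ)) (𝓝 0) (𝓝 (0 * (k : ℝ))) :=
    tendsto_id.mul tendsto_const_nhds
  rw [zero_mul] at h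
  exact h.mono_left nhdsWithin_le_nhds

theorem SL.congr {f g : ℝ → ℤ} {c : ℝ} (h : SL f c) (hfg : ∀ᶠ δ in 𝓝[>] (0 : ℝ), f δ = g δ) :
    SL g c := by
  refine Tendsto.congr' ?_ h
  filter_upwards [hfg] with δ hδ
  rw [hδ]

theorem SL.add {f g : ℝ → ℤ} {c d : ℝ} (hf : SL f c) (hg : SL g d) :
    SL (fun δ => f δ + g δ) (c + d) := by
  refine Tendsto.congr ?_ (Tendsto.add hf hg)
  intro δ
  push_cast
  ring

theorem SL.neg {f : ℝ → ℤ} {c : ℝ} (hf : SL f c) : SL (fun δ => - f δ) (-c) := by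
  refine Tendsto.congr ?_ (Tendsto.neg hf)
  intro δ
  push_cast
  ring

theorem SL.sub {f g : ℝ → ℤ} {c d : ℝ} (hf : SL f c) (hg : SL g d) :
    SL (fun δ => f δ - g δ) (c - d) := by
  refine Tendsto.congr ?_ (Tendsto.sub hf hg)
  intro δ
  push_cast
  ring

theorem SL.two {f : ℝ → ℤ} {c : ℝ} (hf : SL f c) : SL (fun δ => 2 * f δ) (2 * c) := by
  refine Tendsto.congr ?_ (Tendsto.const_mul 2 hf)
  intro δ
  push_cast
  ring

theorem SL.min {f g : ℝ → ℤ} {c d : ℝ} (hf : SL f c) (hg : SL g d) :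
    SL (fun δ => min (f δ) (g δ)) (min c d) := by
  refine Tendsto.congr' ?_ (Tendsto.min hf hg)
  filter_upwards [pos_ev] with δ hδ
  push_cast
  rw [mul_min_of_nonneg _ _ hδ.le]

theorem SL.max {f g : ℝ → ℤ} {c d : ℝ} (hf : SL f c) (hg : SL g d) :
    SL (fun δ => max (f δ) (g δ)) (max c d) := by
  refine Tendsto.congr' ?_ (Tendsto.max hf hg)
  filter_upwards [pos_ev] with δ hδ
  push_cast
  rw [mul_max_of_nonneg _ _ hδ.le]

theorem SL.abs {f : ℝ → ℤ} {c : ℝ} (hf : SL f c) : SL (fun δ => |f δ|) |c| := by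
  refine Tendsto.congr' ?_ (Tendsto.abs hf)
  filter_upwards [pos_ev] with δ hδ
  push_cast
  rw [abs_mul, abs_of_pos hδ]

theorem SL.pos {f : ℝ → ℤ} {c : ℝ} (hf : SL f c) (hc : 0 < c) :
    ∀ᶠ δ in 𝓝[>] (0 : ℝ), 0 < f δ := by
  filter_upwards [Tendsto.eventually_const_lt hc hf, pos_ev] with δ h1 h2
  have h3 : (0 : ℝ) < f δ := pos_of_mul_pos_right h1 h2.le
  exact_mod_cast h3

theorem SL.lt {f g : ℝ → ℤ} {c d : ℝ} (hf : SL f c) (hg : SL g d) (h : c < d) :
    ∀ᶠ δ in 𝓝[>] (0 : ℝ), f δ < g δ := by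
  filter_upwards [(hg.sub hf).pos (by linarith)] with δ h1
  omega

theorem rho_a {m n k : ℤ} (hm : 1 ≤ m) (hn : 1 ≤ n) (h0 : 0 ≤ k) (h1 : k ≤ m) :
    rho m n (-(n + k)) = min (m - k) k := by
  have e : -(n + k) + 1 * (2 * (m + n)) - m - n = m - k := by ring
  rw [← rho_period m n (-(n + k)) 1, rho_rot m n, rho_rot n m, e, rho_bot hm hn (by omega)
    (by omega)]
  congr 1
  ring

theorem bd_a {m n k : ℤ} (hm : 1 ≤ m) (hn : 1 ≤ n) (h0 : 0 ≤ k) (h1 : k ≤ m) :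
    bd m n (-(n + k)) = (k, n) := by
  rw [← bd_period m n (-(n + k)) 1, bd_top hm hn (by omega) (by omega)]
  ext
  · show 2 * m + n - (-(n + k) + 1 * (2 * (m + n))) = k
    ring
  · rfl

/-- the explicit form of `HH` -/
theorem HH_eq {m n k b : ℤ} (hm : 1 ≤ m) (hn : 1 ≤ n) (hk0 : 0 ≤ k) (hk1 : k ≤ m) (hb0 : 0 ≤ b)
    (hb1 : b ≤ m) (p q : ℤ) :
    HH m n (-(n + k)) b (p, q) =
      (((min p (m - p) + 1 : ℤ) : ℝ) * ((min q (n - q) + 1 : ℤ) : ℝ) *
        ((((min (b + n + k) (2 * (m + n) - (b + n + k)) + 1) *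
          (min (b + n + k) (2 * (m + n) - (b + n + k)) + 1 + min (m - k) k + min b (m - b)) : ℤ)) :
            ℝ)) /
      (((((max |p - k| |q - n| + 1) * (max |p - k| |q - n| + 1 + min (m - k) k) : ℤ)) : ℝ) *
        ((((max |p - b| |q - 0| + 1) * (max |p - b| |q - 0| + 1 + min b (m - b)) : ℤ)) : ℝ)) := by
  have hcd : cd (2 * (m + n)) (b - -(n + k)) =
      min (b + n + k) (2 * (m + n) - (b + n + k)) := by
    have e : b - -(n + k) = b + n + k := by ring
    rw [e]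
    exact cd_of_mem (by omega) (by omega) (by omega)
  unfold HH sz sv ds px py
  rw [rho_a hm hn hk0 hk1, rho_bot hm hn hb0 hb1, bd_a hm hn hk0 hk1, bd_bot hm hn hb0 hb1, hcd]

/-- the limit -/
noncomputable def LL (m n k b p q : ℝ) : ℝ :=
  (min p (m - p) * min q (n - q) *
    (min (b + n + k) (2 * (m + n) - (b + n + k)) *
      (min (b + n + k) (2 * (m + n) - (b + n + k)) + min (m - k) k + min b (m - b)))) /
  ((max |p - k| |q - n| * (max |p - k| |q - n| + min (m - k) k)) *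
    (max |p - b| |q| * (max |p - b| |q| + min b (m - b))))

theorem lim_gen {m n k b p q : ℝ → ℤ} {m' n' k' b' p' q' : ℝ} (hm : SL m m') (hn : SL n n')
    (hk : SL k k') (hb : SL b b') (hp : SL p p') (hq : SL q q') (hk0 : 0 < k') (hk1 : k' < m')
    (hb0 : 0 < b') (hb1 : b' < m') (hn0 : 0 < n') (ha : 0 < max |p' - k'| |q' - n'|)
    (hbb : 0 < max |p' - b'| |q'|) :
    Tendsto (fun δ => HH (m δ) (n δ) (-(n δ + k δ)) (b δ) (p δ, q δ)) (𝓝[>] 0)
      (𝓝 (LL m' n' k' b' p' q')) := by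
  have s1 : SL (fun _ => 1) 0 := SL.const 1
  have s0 : SL (fun _ => 0) 0 := SL.const 0
  have tpx := (hp.min (hm.sub hp)).add s1
  have tpy := (hq.min (hn.sub hq)).add s1
  have tD := (((hb.add hn).add hk).min (((hm.add hn).two).sub ((hb.add hn).add hk))).add s1
  have tra := (hm.sub hk).min hk
  have trb := hb.min (hm.sub hb)
  have tda := (((hp.sub hk).abs).max ((hq.sub hn).abs)).add s1
  have tdb := (((hp.sub hb).abs).max ((hq.sub s0).abs)).add s1
  simp only [add_zero, sub_zero] at tpx tpy tD tda tdb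
  have hra : 0 < min (m' - k') k' := lt_min (by linarith) hk0
  have hrb : 0 < min b' (m' - b') := lt_min hb0 (by linarith)
  have hden : (max |p' - k'| |q' - n'| * (max |p' - k'| |q' - n'| + min (m' - k') k')) *
      (max |p' - b'| |q'| * (max |p' - b'| |q'| + min b' (m' - b'))) ≠ 0 := by positivity
  have hnum := (Tendsto.mul (Tendsto.mul tpx tpy) (Tendsto.mul tD ((Tendsto.add tD tra).add trb)))
  have hdn := (Tendsto.mul (Tendsto.mul tda (Tendsto.add tda tra))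
    (Tendsto.mul tdb (Tendsto.add tdb trb)))
  have hlim := hnum.div hdn hden
  unfold LL
  refine Tendsto.congr' ?_ hlim
  have m1 : ∀ᶠ δ in 𝓝[>] (0 : ℝ), 0 < m δ := hm.pos (by linarith)
  have n1 : ∀ᶠ δ in 𝓝[>] (0 : ℝ), 0 < n δ := hn.pos hn0
  have k0 : ∀ᶠ δ in 𝓝[>] (0 : ℝ), 0 < k δ := hk.pos hk0
  have k1 : ∀ᶠ δ in 𝓝[>] (0 : ℝ), k δ < m δ := hk.lt hm hk1
  have b0 : ∀ᶠ δ in 𝓝[>] (0 : ℝ), 0 < b δ := hb.pos hb0
  have b1 : ∀ᶠ δ in 𝓝[>] (0 : ℝ), b δ < m δ := hb.lt hm hb1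
  filter_upwards [m1, n1, k0, k1, b0, b1, pos_ev] with δ m1 n1 k0 k1 b0 b1 hδ
  rw [HH_eq m1 n1 k0.le k1.le b0.le b1.le (p δ) (q δ)]
  have h4 : δ ^ 4 ≠ 0 := by positivity
  rw [← mul_div_mul_left _ _ h4]
  simp only [Pi.mul_apply, Pi.add_apply, Pi.div_apply]
  congr 1
  · push_cast
    ring
  · push_cast
    ring_nf

theorem norm_le_two (w : ℂ) : ‖w‖ ≤ 2 * max |w.re| |w.im| := by
  have h1 := Complex.norm_le_abs_re_add_abs_im w
  have h2 := le_max_left |w.re| |w.im|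
  have h3 := le_max_right |w.re| |w.im|
  linarith

theorem max_le_norm (w : ℂ) : max |w.re| |w.im| ≤ ‖w‖ :=
  max_le (Complex.abs_re_le_norm w) (Complex.abs_im_le_norm w)

/-- comparison of the limit with `Th` -/
theorem compare (K : ℝ) (R : Rect) (hK : R.A + R.B ≤ K * R.H) (z : ℂ) (hz : z ∈ R.D) :
    0 < R.Th z ∧
    R.Th z ≤ LL (R.B - -R.A) R.H (R.t - -R.A) R.A (z.re - -R.A) z.im ∧
      LL (R.B - -R.A) R.H (R.t - -R.A) R.A (z.re - -R.A) z.im ≤
        16 * (1 + |K|) * (1 + 2 * |K|) * R.Th z := by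
  obtain ⟨z1, z2, z3, z4⟩ := hz
  have hA := R.hA
  have hB := R.hB
  have hH := R.hH
  have ht1 := R.ht1
  have ht2 := R.ht2
  have hKK : K ≤ |K| := le_abs_self K
  have hKH : R.A + R.B ≤ |K| * R.H := hK.trans (mul_le_mul_of_nonneg_right hKK hH.le)
  have hK0 : 0 ≤ |K| := abs_nonneg K
  -- the ingredients
  have erx : min (z.re - -R.A) (R.B - -R.A - (z.re - -R.A)) = R.rx z := by
    unfold Rect.rx
    congr 1 <;> ring
  have ery : min z.im (R.H - z.im) = R.ry z := rfl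
  have era : min (R.B - -R.A - (R.t - -R.A)) (R.t - -R.A) = R.ra := by
    unfold Rect.ra
    rw [min_comm]
    congr 1 <;> ring
  have erb : min R.A (R.B - -R.A - R.A) = R.rb := by
    unfold Rect.rb
    congr 1
    ring
  obtain ⟨D, hD⟩ : ∃ D, D = min (R.A + R.H + (R.t - -R.A))
    (2 * (R.B - -R.A + R.H) - (R.A + R.H + (R.t - -R.A))) := ⟨_, rfl⟩
  obtain ⟨Na, hNa⟩ : ∃ x, x = max |z.re - -R.A - (R.t - -R.A)| |z.im - R.H| := ⟨_, rfl⟩
  obtain ⟨Nb, hNb⟩ : ∃ x, x = max |z.re - -R.A - R.A| |z.im| := ⟨_, rfl⟩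
  have hL : LL (R.B - -R.A) R.H (R.t - -R.A) R.A (z.re - -R.A) z.im =
      (R.rx z * R.ry z * (D * (D + R.ra + R.rb))) /
        ((Na * (Na + R.ra)) * (Nb * (Nb + R.rb))) := by
    unfold LL
    rw [erx, ery, era, erb, ← hD, ← hNa, ← hNb]
  have hrx : 0 < R.rx z := lt_min (by linarith) (by linarith)
  have hry : 0 < R.ry z := lt_min z3 (by linarith)
  have hra : 0 < R.ra := lt_min (by linarith) (by linarith)
  have hrb : 0 < R.rb := lt_min hA hB
  have hra2 : 2 * R.ra ≤ R.A + R.B := by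
    have h1 := min_le_left (R.A + R.t) (R.B - R.t)
    have h2 := min_le_right (R.A + R.t) (R.B - R.t)
    unfold Rect.ra
    linarith
  have hrb2 : 2 * R.rb ≤ R.A + R.B := by
    have h1 := min_le_left R.A R.B
    have h2 := min_le_right R.A R.B
    unfold Rect.rb
    linarith
  have hD1 : R.H ≤ D := by
    rw [hD]
    exact le_min (by linarith) (by linarith)
  have hD2 : D ≤ R.A + R.B + R.H := by
    have h1 := min_le_left (R.A + R.H + (R.t - -R.A))
      (2 * (R.B - -R.A + R.H) - (R.A + R.H + (R.t - -R.A)))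
    have h2 := min_le_right (R.A + R.H + (R.t - -R.A))
      (2 * (R.B - -R.A + R.H) - (R.A + R.H + (R.t - -R.A)))
    rw [← hD] at h1 h2
    linarith
  have hNa' : Na = max |(z - R.pa).re| |(z - R.pa).im| := by
    rw [hNa]
    have e1 : (z - R.pa).re = z.re - -R.A - (R.t - -R.A) := by
      rw [Complex.sub_re]
      show z.re - R.t = _
      ring
    have e2 : (z - R.pa).im = z.im - R.H := rfl
    rw [e1, e2]
  have hNb' : Nb = max |z.re| |z.im| := by
    rw [hNb]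
    congr 2
    ring
  have hNa0 : 0 < Na := by
    rw [hNa]
    exact lt_max_of_lt_right (abs_pos.2 (by linarith))
  have hNb0 : 0 < Nb := by
    rw [hNb']
    exact lt_max_of_lt_right (abs_pos.2 (by linarith))
  obtain ⟨ma, hma⟩ : ∃ x, x = ‖z - R.pa‖ := ⟨_, rfl⟩
  obtain ⟨mb, hmb⟩ : ∃ x, x = ‖z‖ := ⟨_, rfl⟩
  have a1 : Na ≤ ma := by rw [hNa', hma]; exact max_le_norm _
  have a2 : ma ≤ 2 * Na := by rw [hNa', hma]; exact norm_le_two _
  have b1 : Nb ≤ mb := by rw [hNb', hmb]; exact max_le_norm _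
  have b2 : mb ≤ 2 * Nb := by rw [hNb', hmb]; exact norm_le_two _
  have hma0 : 0 < ma := lt_of_lt_of_le hNa0 a1
  have hmb0 : 0 < mb := lt_of_lt_of_le hNb0 b1
  have hT : R.Th z = R.rx z * R.ry z * R.H ^ 2 / ((ma * (ma + R.ra)) * (mb * (mb + R.rb))) := by
    unfold Rect.Th
    rw [← hma, ← hmb]
  have hTpos : 0 < R.Th z := by
    rw [hT]
    positivity
  have na : Na * (Na + R.ra) ≤ ma * (ma + R.ra) :=
    mul_le_mul a1 (by linarith) (by positivity) hma0.le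
  have nb : Nb * (Nb + R.rb) ≤ mb * (mb + R.rb) :=
    mul_le_mul b1 (by linarith) (by positivity) hmb0.le
  have na2 : ma * (ma + R.ra) ≤ 4 * (Na * (Na + R.ra)) := by
    have h1 : ma * (ma + R.ra) ≤ (2 * Na) * (2 * Na + R.ra) :=
      mul_le_mul a2 (by linarith) (by positivity) (by positivity)
    nlinarith [mul_pos hNa0 hra]
  have nb2 : mb * (mb + R.rb) ≤ 4 * (Nb * (Nb + R.rb)) := by
    have h1 : mb * (mb + R.rb) ≤ (2 * Nb) * (2 * Nb + R.rb) :=
      mul_le_mul b2 (by linarith) (by positivity) (by positivity)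
    nlinarith [mul_pos hNb0 hrb]
  have hDD1 : R.H ^ 2 ≤ D * (D + R.ra + R.rb) := by
    have h1 : R.H * R.H ≤ D * (D + R.ra + R.rb) :=
      mul_le_mul hD1 (by linarith) hH.le (by linarith)
    nlinarith
  have hDD2 : D * (D + R.ra + R.rb) ≤ (1 + |K|) * (1 + 2 * |K|) * R.H ^ 2 := by
    have h1 : D ≤ (1 + |K|) * R.H := by nlinarith
    have h2 : D + R.ra + R.rb ≤ (1 + 2 * |K|) * R.H := by nlinarith
    have h3 : D * (D + R.ra + R.rb) ≤ ((1 + |K|) * R.H) * ((1 + 2 * |K|) * R.H) :=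
      mul_le_mul h1 h2 (by linarith) (by positivity)
    calc D * (D + R.ra + R.rb) ≤ ((1 + |K|) * R.H) * ((1 + 2 * |K|) * R.H) := h3
      _ = (1 + |K|) * (1 + 2 * |K|) * R.H ^ 2 := by ring
  refine ⟨hTpos, ?_, ?_⟩
  · rw [hL, hT]
    have hD0 : 0 < D := lt_of_lt_of_le hH hD1
    apply div_le_div₀ (by positivity)
      (mul_le_mul_of_nonneg_left hDD1 (by positivity)) (by positivity)
    exact mul_le_mul na nb (by positivity) (by positivity)
  · rw [hL, hT]
    have hden : (ma * (ma + R.ra)) * (mb * (mb + R.rb)) ≤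
        16 * ((Na * (Na + R.ra)) * (Nb * (Nb + R.rb))) := by
      calc (ma * (ma + R.ra)) * (mb * (mb + R.rb)) ≤
          (4 * (Na * (Na + R.ra))) * (4 * (Nb * (Nb + R.rb))) :=
            mul_le_mul na2 nb2 (by positivity) (by positivity)
        _ = 16 * ((Na * (Na + R.ra)) * (Nb * (Nb + R.rb))) := by ring
    have hX : 0 < (Na * (Na + R.ra)) * (Nb * (Nb + R.rb)) := by positivity
    have hY : 0 < (ma * (ma + R.ra)) * (mb * (mb + R.rb)) := by positivity
    rw [div_le_iff₀ hX]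
    have h1 : 1 ≤ 16 * ((Na * (Na + R.ra)) * (Nb * (Nb + R.rb))) /
        ((ma * (ma + R.ra)) * (mb * (mb + R.rb))) := (one_le_div hY).2 hden
    have h2 : 0 ≤ R.rx z * R.ry z * ((1 + |K|) * (1 + 2 * |K|) * R.H ^ 2) := by positivity
    calc R.rx z * R.ry z * (D * (D + R.ra + R.rb)) ≤
        R.rx z * R.ry z * ((1 + |K|) * (1 + 2 * |K|) * R.H ^ 2) :=
          mul_le_mul_of_nonneg_left hDD2 (by positivity)
      _ ≤ R.rx z * R.ry z * ((1 + |K|) * (1 + 2 * |K|) * R.H ^ 2) *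
          (16 * ((Na * (Na + R.ra)) * (Nb * (Nb + R.rb))) /
            ((ma * (ma + R.ra)) * (mb * (mb + R.rb)))) := le_mul_of_one_le_right h2 h1
      _ = 16 * (1 + |K|) * (1 + 2 * |K|) *
          (R.rx z * R.ry z * R.H ^ 2 / (ma * (ma + R.ra) * (mb * (mb + R.rb)))) *
          ((Na * (Na + R.ra)) * (Nb * (Nb + R.rb))) := by
            field_simp

end G4aux

open G4aux in
theorem g4 : St_G4 := by
  intro K
  refine ⟨1 / 2, 2 * (16 * (1 + |K|) * (1 + 2 * |K|)), by norm_num, by positivity, ?_⟩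
  intro R hK1 _ z hz
  obtain ⟨hT, hc1, hc2⟩ := compare K R hK1 z hz
  have hz' := hz
  obtain ⟨z1, z2, z3, z4⟩ := hz'
  have hA := R.hA
  have hB := R.hB
  have hH := R.hH
  have ht1 := R.ht1
  have ht2 := R.ht2
  have sx0 : SL (R.x0) (-R.A) := by
    have h := (SL.floor R.A)
    have h1 : SL (fun δ => ⌊-(R.A / δ)⌋ + 1) (-R.A + 0) := by
      have h2 := (SL.floor (-R.A)).add (SL.const 1)
      refine h2.congr (Eventually.of_forall fun δ => ?_)
      show ⌊-R.A / δ⌋ + 1 = ⌊-(R.A / δ)⌋ + 1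
      rw [neg_div]
    rw [add_zero] at h1
    exact h1
  have sx1 : SL (R.x1) R.B := by
    have h1 := (SL.ceil R.B).sub (SL.const 1)
    rw [sub_zero] at h1
    exact h1
  have sy1 : SL (R.y1) R.H := by
    have h1 := (SL.ceil R.H).sub (SL.const 2)
    rw [sub_zero] at h1
    exact h1
  have stc : SL (R.tc) R.t := SL.floor R.t
  have sv1 : SL (fun δ => ⌊z.re / δ⌋ - R.x0 δ) (z.re - -R.A) := (SL.floor z.re).sub sx0
  have sv2 : SL (fun δ => ⌊z.im / δ⌋ - 1) z.im := by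
    have h1 := (SL.floor z.im).sub (SL.const 1)
    rw [sub_zero] at h1
    exact h1
  have sb : SL (fun δ => - R.x0 δ) R.A := by
    have h1 := sx0.neg
    rw [neg_neg] at h1
    exact h1
  have hlim := lim_gen (m := fun δ => gm R δ) (n := fun δ => gn R δ)
    (k := fun δ => R.tc δ - R.x0 δ) (b := fun δ => gb R δ) (p := fun δ => ⌊z.re / δ⌋ - R.x0 δ)
    (q := fun δ => ⌊z.im / δ⌋ - 1) (sx1.sub sx0) sy1 (stc.sub sx0) sb sv1 sv2
    (by linarith) (by linarith) hA (by linarith) hH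
    (lt_max_of_lt_right (abs_pos.2 (by linarith)))
    (lt_max_of_lt_right (abs_pos.2 (by linarith)))
  have e : ∀ δ, HH (gm R δ) (gn R δ) (ga R δ) (gb R δ) (vt R δ z) =
      HH (gm R δ) (gn R δ) (-(gn R δ + (R.tc δ - R.x0 δ))) (gb R δ)
        (⌊z.re / δ⌋ - R.x0 δ, ⌊z.im / δ⌋ - 1) := fun δ => rfl
  have hLpos : 0 < LL (R.B - -R.A) R.H (R.t - -R.A) R.A (z.re - -R.A) z.im :=
    lt_of_lt_of_le hT hc1
  have g1 : 1 / 2 * R.Th z < LL (R.B - -R.A) R.H (R.t - -R.A) R.A (z.re - -R.A) z.im := by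
    linarith
  have g2 : LL (R.B - -R.A) R.H (R.t - -R.A) R.A (z.re - -R.A) z.im <
      2 * (16 * (1 + |K|) * (1 + 2 * |K|)) * R.Th z := by
    nlinarith
  filter_upwards [hlim.eventually_const_lt g1, hlim.eventually_lt_const g2] with δ h1 h2
  rw [e]
  exact ⟨h1.le, h2.le⟩

end H934G
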