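import Pool.Agent.H934R4.GL.Props

/-!
# G5: three asymptotic statements
-/

set_option autoImplicit false

namespace H934G

open H974 hiding bd
open H731C H731R H731A H731G H934E Finset MeasureTheory TopologicalSpace Filter Topology

theorem g5_ev {c : ℝ} (hc : 0 < c) : ∀ᶠ δ in 𝓝[>] (0 : ℝ), 0 < δ ∧ δ < c := by
  filter_upwards [Ioo_mem_nhdsGT hc] with δ hδ using hδ

/-- the four numbers -/
theorem g5_px (R : Rect) (z : ℂ) {δ : ℝ} (hδ : 0 < δ) :
    (z.re + R.A - δ < δ * (((vt R δ z).1 + 1 : ℤ) : ℝ) ∧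
      δ * (((vt R δ z).1 + 1 : ℤ) : ℝ) < z.re + R.A + δ) ∧
    (R.B - z.re ≤ δ * ((gm R δ - (vt R δ z).1 + 1 : ℤ) : ℝ) ∧
      δ * ((gm R δ - (vt R δ z).1 + 1 : ℤ) : ℝ) < R.B - z.re + 2 * δ) ∧
    (z.im - δ < δ * (((vt R δ z).2 + 1 : ℤ) : ℝ) ∧
      δ * (((vt R δ z).2 + 1 : ℤ) : ℝ) ≤ z.im) ∧
    (R.H - z.im ≤ δ * ((gn R δ - (vt R δ z).2 + 1 : ℤ) : ℝ) ∧
      δ * ((gn R δ - (vt R δ z).2 + 1 : ℤ) : ℝ) < R.H - z.im + 2 * δ) := by
  have a1 := Int.floor_le (z.re / δ)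
  have a2 := Int.lt_floor_add_one (z.re / δ)
  have b1 := Int.floor_le (-(R.A / δ))
  have b2 := Int.lt_floor_add_one (-(R.A / δ))
  have c1 := Int.le_ceil (R.B / δ)
  have c2 := Int.ceil_lt_add_one (R.B / δ)
  have d1 := Int.floor_le (z.im / δ)
  have d2 := Int.lt_floor_add_one (z.im / δ)
  have e1 := Int.le_ceil (R.H / δ)
  have e2 := Int.ceil_lt_add_one (R.H / δ)
  have f1 : δ * (z.re / δ) = z.re := by field_simp
  have f2 : δ * (R.A / δ) = R.A := by field_simp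
  have f3 : δ * (R.B / δ) = R.B := by field_simp
  have f4 : δ * (z.im / δ) = z.im := by field_simp
  have f5 : δ * (R.H / δ) = R.H := by field_simp
  have g1 : (vt R δ z).1 + 1 = ⌊z.re / δ⌋ - ⌊-(R.A / δ)⌋ := by
    simp only [vt, vz, Rect.x0]; ring
  have g2 : gm R δ - (vt R δ z).1 + 1 = ⌈R.B / δ⌉ - ⌊z.re / δ⌋ := by
    simp only [vt, vz, gm, Rect.x0, Rect.x1]; ring
  have g3 : (vt R δ z).2 + 1 = ⌊z.im / δ⌋ := by
    simp only [vt, vz]; ring
  have g4 : gn R δ - (vt R δ z).2 + 1 = ⌈R.H / δ⌉ - ⌊z.im / δ⌋ := by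
    simp only [vt, vz, gn, Rect.y1]; ring
  rw [g1, g2, g3, g4]
  push_cast
  refine ⟨⟨?_, ?_⟩, ⟨?_, ?_⟩, ⟨?_, ?_⟩, ⟨?_, ?_⟩⟩
  · nlinarith
  · nlinarith
  · nlinarith
  · nlinarith
  · nlinarith
  · nlinarith
  · nlinarith
  · nlinarith

theorem g5_min (R : Rect) (z : ℂ) {δ : ℝ} (hδ : 0 < δ) :
    R.rd z - 2 * δ ≤
      δ * ((min (px (gm R δ) (vt R δ z)) (py (gn R δ) (vt R δ z)) : ℤ) : ℝ) ∧
    δ * ((min (px (gm R δ) (vt R δ z)) (py (gn R δ) (vt R δ z)) : ℤ) : ℝ) ≤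
      R.rd z + 2 * δ := by
  obtain ⟨⟨h1, h2⟩, ⟨h3, h4⟩, ⟨h5, h6⟩, ⟨h7, h8⟩⟩ := g5_px R z hδ
  have e : ((min (px (gm R δ) (vt R δ z)) (py (gn R δ) (vt R δ z)) : ℤ) : ℝ) =
      min (min (((vt R δ z).1 + 1 : ℤ) : ℝ) ((gm R δ - (vt R δ z).1 + 1 : ℤ) : ℝ))
        (min (((vt R δ z).2 + 1 : ℤ) : ℝ) ((gn R δ - (vt R δ z).2 + 1 : ℤ) : ℝ)) := by
    unfold px py
    rw [← min_add_add_right, ← min_add_add_right]
    push_cast
    rfl
  have e2 : δ * ((min (px (gm R δ) (vt R δ z)) (py (gn R δ) (vt R δ z)) : ℤ) : ℝ) =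
      min (min (δ * (((vt R δ z).1 + 1 : ℤ) : ℝ)) (δ * ((gm R δ - (vt R δ z).1 + 1 : ℤ) : ℝ)))
        (min (δ * (((vt R δ z).2 + 1 : ℤ) : ℝ)) (δ * ((gn R δ - (vt R δ z).2 + 1 : ℤ) : ℝ))) := by
    rw [e, mul_min_of_nonneg _ _ hδ.le, mul_min_of_nonneg _ _ hδ.le, mul_min_of_nonneg _ _ hδ.le]
  rw [e2]
  unfold Rect.rd Rect.rx Rect.ry
  constructor
  · refine le_min (le_min ?_ ?_) (le_min ?_ ?_)
    · have := min_le_left (min (z.re + R.A) (R.B - z.re)) (min z.im (R.H - z.im))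
      have := min_le_left (z.re + R.A) (R.B - z.re)
      linarith
    · have := min_le_left (min (z.re + R.A) (R.B - z.re)) (min z.im (R.H - z.im))
      have := min_le_right (z.re + R.A) (R.B - z.re)
      linarith
    · have := min_le_right (min (z.re + R.A) (R.B - z.re)) (min z.im (R.H - z.im))
      have := min_le_left z.im (R.H - z.im)
      linarith
    · have := min_le_right (min (z.re + R.A) (R.B - z.re)) (min z.im (R.H - z.im))
      have := min_le_right z.im (R.H - z.im)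
      linarith
  · rw [← sub_le_iff_le_add]
    refine le_min (le_min ?_ ?_) (le_min ?_ ?_)
    · rw [sub_le_iff_le_add]
      refine (min_le_left _ _).trans ((min_le_left _ _).trans ?_)
      linarith
    · rw [sub_le_iff_le_add]
      refine (min_le_left _ _).trans ((min_le_right _ _).trans ?_)
      linarith
    · rw [sub_le_iff_le_add]
      refine (min_le_right _ _).trans ((min_le_left _ _).trans ?_)
      linarith
    · rw [sub_le_iff_le_add]
      refine (min_le_right _ _).trans ((min_le_right _ _).trans ?_)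
      linarith

theorem g5_rd_pos (R : Rect) {z : ℂ} (hz : z ∈ R.D) : 0 < R.rd z := by
  obtain ⟨h1, h2, h3, h4⟩ := hz
  unfold Rect.rd Rect.rx Rect.ry
  exact lt_min (lt_min (by linarith) (by linarith)) (lt_min h3 (by linarith))

/-- G5a: asymptotics of the distances. -/
theorem g5a : St_G5a := by
  intro R z hz
  have h0 := g5_rd_pos R hz
  filter_upwards [g5_ev (c := R.rd z / 4) (by positivity)] with δ hδ
  obtain ⟨h1, h2⟩ := g5_min R z hδ.1
  constructor <;> linarith [hδ.2]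

/-- G5b: position of the vertex. -/
theorem g5b : St_G5b := by
  intro R z hz r hr hr2
  filter_upwards [g5_ev (c := (R.rd z - 2 * r) / 8) (by linarith)] with δ hδ
  obtain ⟨h1, h2⟩ := g5_min R z hδ.1
  have hδ2 := hδ.2
  set p := min (px (gm R δ) (vt R δ z)) (py (gn R δ) (vt R δ z)) with hp
  set ρ := ⌊r / δ⌋ + 3 with hρ
  have hρ3 : 3 ≤ ρ := by
    have : 0 ≤ ⌊r / δ⌋ := Int.floor_nonneg.2 (div_nonneg hr.le hδ.1.le)
    omega
  have h3 : 2 * ρ ≤ p := by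
    have h4 := Int.floor_le (r / δ)
    have h5 : δ * (r / δ) = r := by
      have := hδ.1.ne'
      field_simp
    have h6 : δ * ((2 * ρ : ℤ) : ℝ) ≤ δ * (p : ℝ) := by
      rw [hρ]
      push_cast
      have h7 : δ * (⌊r / δ⌋ : ℝ) ≤ r := by
        rw [← h5]
        rw [h5]
        calc δ * (⌊r / δ⌋ : ℝ) ≤ δ * (r / δ) := mul_le_mul_of_nonneg_left h4 hδ.1.le
          _ = r := h5
      nlinarith
    have h8 := le_of_mul_le_mul_left h6 hδ.1
    exact_mod_cast h8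
  refine ⟨?_, h3⟩
  have h4 : p ≤ (vt R δ z).1 + 1 := by
    rw [hp]; unfold px
    exact (min_le_left _ _).trans (by have := min_le_left (vt R δ z).1 (gm R δ - (vt R δ z).1); omega)
  have h5 : p ≤ gm R δ - (vt R δ z).1 + 1 := by
    rw [hp]; unfold px
    exact (min_le_left _ _).trans (by have := min_le_right (vt R δ z).1 (gm R δ - (vt R δ z).1); omega)
  have h6 : p ≤ (vt R δ z).2 + 1 := by
    rw [hp]; unfold py
    exact (min_le_right _ _).trans (by have := min_le_left (vt R δ z).2 (gn R δ - (vt R δ z).2); omega)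
  have h7 : p ≤ gn R δ - (vt R δ z).2 + 1 := by
    rw [hp]; unfold py
    exact (min_le_right _ _).trans (by have := min_le_right (vt R δ z).2 (gn R δ - (vt R δ z).2); omega)
  have e1 : (vt R δ z).1 = (vz δ z).1 - R.x0 δ := rfl
  have e2 : (vt R δ z).2 = (vz δ z).2 := rfl
  have e3 : gm R δ = R.x1 δ - R.x0 δ := rfl
  have e4 : gn R δ = R.y1 δ := rfl
  rw [e1] at h4 h5
  rw [e2] at h6 h7
  rw [e3] at h5
  rw [e4] at h7
  refine ⟨⟨by omega, by omega⟩, ⟨by omega, by omega⟩⟩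

/-- G5c: aspect ratio. -/
theorem g5c : St_G5c := by
  intro R K hK1 hK2
  have hA := R.hA
  have hB := R.hB
  have hH := R.hH
  filter_upwards [g5_ev (c := R.H / 4) (by positivity),
    g5_ev (c := (R.A + R.B) / 4) (by positivity)] with δ hδ hδ'
  have hδ0 := hδ.1
  have b1 := Int.floor_le (-(R.A / δ))
  have b2 := Int.lt_floor_add_one (-(R.A / δ))
  have c1 := Int.le_ceil (R.B / δ)
  have c2 := Int.ceil_lt_add_one (R.B / δ)
  have e1 := Int.le_ceil (R.H / δ)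
  have e2 := Int.ceil_lt_add_one (R.H / δ)
  have f2 : δ * (R.A / δ) = R.A := by field_simp
  have f3 : δ * (R.B / δ) = R.B := by field_simp
  have f5 : δ * (R.H / δ) = R.H := by field_simp
  have g1 : gm R δ = ⌈R.B / δ⌉ - ⌊-(R.A / δ)⌋ - 2 := by
    simp only [gm, Rect.x0, Rect.x1]; ring
  have g2 : gn R δ = ⌈R.H / δ⌉ - 2 := by
    simp only [gn, Rect.y1]
  have h1 : R.A + R.B - 2 * δ ≤ δ * (gm R δ : ℝ) := by
    rw [g1]; push_cast; nlinarith
  have h2 : δ * (gm R δ : ℝ) ≤ R.A + R.B := by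
    rw [g1]; push_cast; nlinarith
  have h3 : R.H - 2 * δ ≤ δ * (gn R δ : ℝ) := by
    rw [g2]; push_cast; nlinarith
  have h4 : δ * (gn R δ : ℝ) ≤ R.H := by
    rw [g2]; push_cast; nlinarith
  have hK : (0 : ℝ) ≤ K := Nat.cast_nonneg K
  constructor
  · have h5 : δ * (gm R δ : ℝ) ≤ δ * ((K * gn R δ : ℤ) : ℝ) := by
      push_cast
      have h6 : (K : ℝ) * (R.H - 2 * δ) ≤ K * (δ * (gn R δ : ℝ)) :=
        mul_le_mul_of_nonneg_left h3 hK
      have h7 : (K : ℝ) * (R.H / 2) ≤ K * (R.H - 2 * δ) :=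
        mul_le_mul_of_nonneg_left (by linarith [hδ.2]) hK
      nlinarith
    have h8 := le_of_mul_le_mul_left h5 hδ0
    exact_mod_cast h8
  · have h5 : δ * (gn R δ : ℝ) ≤ δ * ((K * gm R δ : ℤ) : ℝ) := by
      push_cast
      have h6 : (K : ℝ) * (R.A + R.B - 2 * δ) ≤ K * (δ * (gm R δ : ℝ)) :=
        mul_le_mul_of_nonneg_left h1 hK
      have h7 : (K : ℝ) * ((R.A + R.B) / 2) ≤ K * (R.A + R.B - 2 * δ) :=
        mul_le_mul_of_nonneg_left (by linarith [hδ'.2]) hK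
      nlinarith
    have h8 := le_of_mul_le_mul_left h5 hδ0
    exact_mod_cast h8

end H934G
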