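import Pool.Agent.H934R4.GL.Props

/-!
# Task G6: the trace and the vertices on the path
-/

set_option autoImplicit false

namespace H934G

open H974 hiding bd
open H731C H731R H731A H731G H934E Finset MeasureTheory TopologicalSpace Filter Topology

namespace G6

/-- points of a medial edge are close to the vertex -/
theorem cseg_near {δ : ℝ} (hδ : 0 < δ) {u : Vtx} {s : Bool × Bool} {w : ℂ}
    (hw : w ∈ cseg δ u s) : |w.re - δ * u.1| ≤ δ / 2 ∧ |w.im - δ * (u.2 + 1)| ≤ δ / 2 := by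
  unfold cseg at hw
  obtain ⟨a, b, ha, hb, hab, rfl⟩ := hw
  obtain rfl : b = 1 - a := by linarith
  obtain ⟨_ | _, _ | _⟩ := s
  all_goals
    simp only [pt, Complex.add_re, Complex.add_im, Complex.real_smul, Complex.mul_re,
      Complex.mul_im, Complex.ofReal_re, Complex.ofReal_im, if_true, Bool.false_eq_true, if_false]
    rw [abs_le, abs_le]
    refine ⟨⟨?_, ?_⟩, ?_, ?_⟩ <;> nlinarith [mul_nonneg ha hδ.le, mul_nonneg hb hδ.le]

/-- the first end of the medial edge -/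
theorem end_mem (δ : ℝ) (u : Vtx) (s : Bool × Bool) :
    pt δ u + ⟨if s.1 then δ / 2 else -(δ / 2), 0⟩ ∈ cseg δ u s := left_mem_segment _ _ _

theorem coord_up {δ r x w : ℝ} (hδ : 0 < δ) (k : ℤ) (h1 : |w - δ * k| ≤ δ / 2)
    (h2 : |w - x| ≤ r) : |k - ⌊x / δ⌋| ≤ ⌊r / δ⌋ + 3 := by
  have f1 := Int.floor_le (x / δ)
  have f2 := Int.lt_floor_add_one (x / δ)
  have f3 := Int.floor_le (r / δ)
  have f4 := Int.lt_floor_add_one (r / δ)
  rw [le_div_iff₀ hδ] at f1 f3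
  rw [div_lt_iff₀ hδ] at f2 f4
  rw [abs_le] at h1 h2
  have g1 : ((k - ⌊x / δ⌋ : ℤ) : ℝ) * δ ≤ ((⌊r / δ⌋ + 3 : ℤ) : ℝ) * δ := by
    push_cast
    nlinarith
  have g2 : ((-(⌊r / δ⌋ + 3) : ℤ) : ℝ) * δ ≤ ((k - ⌊x / δ⌋ : ℤ) : ℝ) * δ := by
    push_cast
    nlinarith
  have g3 := le_of_mul_le_mul_right g1 hδ
  have g4 := le_of_mul_le_mul_right g2 hδ
  rw [abs_le]
  constructor
  · exact_mod_cast g4
  · exact_mod_cast g3

theorem coord_low {δ r x : ℝ} (hδ : 0 < δ) (k : ℤ) (h : |k - ⌊x / δ⌋| ≤ ⌊r / (2 * δ)⌋ - 3) :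
    |δ * k - x| ≤ r / 2 - 2 * δ := by
  have f1 := Int.floor_le (x / δ)
  have f2 := Int.lt_floor_add_one (x / δ)
  have f3 := Int.floor_le (r / (2 * δ))
  rw [le_div_iff₀ hδ] at f1
  rw [div_lt_iff₀ hδ] at f2
  rw [le_div_iff₀ (by positivity)] at f3
  rw [abs_le] at h
  have g1 : ((-(⌊r / (2 * δ)⌋ - 3) : ℤ) : ℝ) ≤ ((k - ⌊x / δ⌋ : ℤ) : ℝ) := by exact_mod_cast h.1
  have g2 : ((k - ⌊x / δ⌋ : ℤ) : ℝ) ≤ ((⌊r / (2 * δ)⌋ - 3 : ℤ) : ℝ) := by exact_mod_cast h.2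
  push_cast at g1 g2
  rw [abs_le]
  constructor
  · nlinarith [mul_le_mul_of_nonneg_right g1 hδ.le]
  · nlinarith [mul_le_mul_of_nonneg_right g2 hδ.le]

end G6

theorem g6 : St_G6 := by
  intro R δ hδ F z r hr
  constructor
  · rintro ⟨w, hw, hz⟩
    unfold Rect.path at hw
    simp only [Set.mem_iUnion, exists_prop] at hw
    obtain ⟨c, hc, hw⟩ := hw
    obtain ⟨h1, h2⟩ := G6.cseg_near hδ hw
    rw [Metric.mem_closedBall, Complex.dist_eq] at hz
    have h3 : |w.re - z.re| ≤ r := by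
      refine le_trans ?_ hz
      simpa using Complex.abs_re_le_norm (w - z)
    have h4 : |w.im - z.im| ≤ r := by
      refine le_trans ?_ hz
      simpa using Complex.abs_im_le_norm (w - z)
    refine ⟨c.1, ⟨?_, ?_⟩, hc.1, c.2, hc.2⟩
    · exact G6.coord_up hδ c.1.1 h1 h3
    · have h5 := G6.coord_up hδ (c.1.2 + 1) (by push_cast; exact h2) h4
      have e : c.1.2 - (vz δ z).2 = c.1.2 + 1 - ⌊z.im / δ⌋ := by
        unfold vz
        simp only
        ring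
      rw [e]
      exact h5
  · rintro ⟨u, ⟨h1, h2⟩, h3, s, h4⟩
    refine ⟨pt δ u + ⟨if s.1 then δ / 2 else -(δ / 2), 0⟩, ?_, ?_⟩
    · unfold Rect.path
      simp only [Set.mem_iUnion, exists_prop]
      exact ⟨(u, s), ⟨h3, h4⟩, G6.end_mem δ u s⟩
    · obtain ⟨k1, k2⟩ := G6.cseg_near hδ (G6.end_mem δ u s)
      have e : u.2 - (vz δ z).2 = u.2 + 1 - ⌊z.im / δ⌋ := by
        unfold vz
        simp only
        ring
      rw [e] at h2
      have h5 := G6.coord_low hδ u.1 h1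
      have h6 := G6.coord_low hδ (u.2 + 1) h2
      push_cast at h6
      rw [Metric.mem_closedBall, Complex.dist_eq]
      refine (Complex.norm_le_abs_re_add_abs_im _).trans ?_
      rw [Complex.sub_re, Complex.sub_im]
      have h7 : |(pt δ u + (⟨if s.1 then δ / 2 else -(δ / 2), 0⟩ : ℂ)).re - z.re| ≤ r / 2 := by
        calc _ ≤ |(pt δ u + (⟨if s.1 then δ / 2 else -(δ / 2), 0⟩ : ℂ)).re - δ * u.1| +
              |δ * u.1 - z.re| := abs_sub_le _ _ _
          _ ≤ δ / 2 + (r / 2 - 2 * δ) := add_le_add k1 h5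
          _ ≤ r / 2 := by linarith
      have h8 : |(pt δ u + (⟨if s.1 then δ / 2 else -(δ / 2), 0⟩ : ℂ)).im - z.im| ≤ r / 2 := by
        calc _ ≤ |(pt δ u + (⟨if s.1 then δ / 2 else -(δ / 2), 0⟩ : ℂ)).im - δ * (u.2 + 1)| +
              |δ * (u.2 + 1) - z.im| := abs_sub_le _ _ _
          _ ≤ δ / 2 + (r / 2 - 2 * δ) := add_le_add k2 h6
          _ ≤ r / 2 := by linarith
      linarith

end H934G
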