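import Pool.Agent.H934R4.GL.Props
import Pool.Agent.H934R2.Expl.Upper

/-!
Task G7: Green function of the limits from the discrete one.
-/

set_option autoImplicit false

namespace H934G

open H974 hiding bd
open H731C H731R H731A H731G H934E Finset MeasureTheory TopologicalSpace Filter Topology

theorem sixteen : (16 : ℝ) ^ ((1 : ℝ) / 4) = 2 := by
  rw [show (16 : ℝ) = 2 ^ (4 : ℝ) by norm_num, ← Real.rpow_mul (by norm_num)]
  norm_num

theorem up_num {C1 C4 q t hh θ : ℝ} (hC1 : 0 < C1) (hC4 : 0 < C4) (hq : 0 ≤ q) (ht : 0 ≤ t)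
    (hθ : 0 ≤ θ) (hh0 : 0 ≤ hh) (h1 : q ≤ 16 * t) (h2 : hh ≤ C4 * θ) :
    C1 * (q ^ ((1 : ℝ) / 4) * hh ^ ((1 : ℝ) / 3)) ≤
      C1 * 2 * C4 ^ ((1 : ℝ) / 3) * (t ^ ((1 : ℝ) / 4) * θ ^ ((1 : ℝ) / 3)) := by
  have e1 : q ^ ((1 : ℝ) / 4) ≤ 2 * t ^ ((1 : ℝ) / 4) := by
    calc q ^ ((1 : ℝ) / 4) ≤ (16 * t) ^ ((1 : ℝ) / 4) := Real.rpow_le_rpow hq h1 (by norm_num)
      _ = 2 * t ^ ((1 : ℝ) / 4) := by rw [Real.mul_rpow (by norm_num) ht, sixteen]
  have e2 : hh ^ ((1 : ℝ) / 3) ≤ C4 ^ ((1 : ℝ) / 3) * θ ^ ((1 : ℝ) / 3) := by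
    calc hh ^ ((1 : ℝ) / 3) ≤ (C4 * θ) ^ ((1 : ℝ) / 3) := Real.rpow_le_rpow hh0 h2 (by norm_num)
      _ = _ := by rw [Real.mul_rpow hC4.le hθ]
  calc C1 * (q ^ ((1 : ℝ) / 4) * hh ^ ((1 : ℝ) / 3))
      ≤ C1 * ((2 * t ^ ((1 : ℝ) / 4)) * (C4 ^ ((1 : ℝ) / 3) * θ ^ ((1 : ℝ) / 3))) := by
        apply mul_le_mul_of_nonneg_left _ hC1.le
        exact mul_le_mul e1 e2 (by positivity) (by positivity)
    _ = _ := by ring

theorem low_num {c1 c4 q t hh θ : ℝ} (hc1 : 0 < c1) (hc4 : 0 < c4) (ht : 0 ≤ t)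
    (hθ : 0 ≤ θ) (h1 : t ≤ 16 * q) (h2 : c4 * θ ≤ hh) :
    c1 / 2 * c4 ^ ((1 : ℝ) / 3) * (t ^ ((1 : ℝ) / 4) * θ ^ ((1 : ℝ) / 3)) ≤
      c1 * (q ^ ((1 : ℝ) / 4) * hh ^ ((1 : ℝ) / 3)) := by
  have hq : 0 ≤ q := by linarith
  have e1 : t ^ ((1 : ℝ) / 4) ≤ 2 * q ^ ((1 : ℝ) / 4) := by
    calc t ^ ((1 : ℝ) / 4) ≤ (16 * q) ^ ((1 : ℝ) / 4) := Real.rpow_le_rpow ht h1 (by norm_num)
      _ = 2 * q ^ ((1 : ℝ) / 4) := by rw [Real.mul_rpow (by norm_num) hq, sixteen]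
  have e2 : c4 ^ ((1 : ℝ) / 3) * θ ^ ((1 : ℝ) / 3) ≤ hh ^ ((1 : ℝ) / 3) := by
    calc _ = (c4 * θ) ^ ((1 : ℝ) / 3) := by rw [Real.mul_rpow hc4.le hθ]
      _ ≤ _ := Real.rpow_le_rpow (by positivity) h2 (by norm_num)
  calc c1 / 2 * c4 ^ ((1 : ℝ) / 3) * (t ^ ((1 : ℝ) / 4) * θ ^ ((1 : ℝ) / 3))
      = c1 * ((t ^ ((1 : ℝ) / 4) / 2) * (c4 ^ ((1 : ℝ) / 3) * θ ^ ((1 : ℝ) / 3))) := by ring
    _ ≤ c1 * (q ^ ((1 : ℝ) / 4) * hh ^ ((1 : ℝ) / 3)) := by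
        apply mul_le_mul_of_nonneg_left _ hc1.le
        exact mul_le_mul (by linarith) e2 (by positivity) (by positivity)

theorem rx_pos {R : Rect} {z : ℂ} (hz : z ∈ R.D) : 0 < R.rx z := by
  obtain ⟨h1, h2, -, -⟩ := hz
  exact lt_min (by linarith) (by linarith)

theorem ry_pos {R : Rect} {z : ℂ} (hz : z ∈ R.D) : 0 < R.ry z := by
  obtain ⟨-, -, h1, h2⟩ := hz
  exact lt_min (by linarith) (by linarith)

theorem rd_pos {R : Rect} {z : ℂ} (hz : z ∈ R.D) : 0 < R.rd z := lt_min (rx_pos hz) (ry_pos hz)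

theorem Th_nonneg {R : Rect} {z : ℂ} (hz : z ∈ R.D) : 0 ≤ R.Th z := by
  have h1 := rx_pos hz
  have h2 := ry_pos hz
  have h3 : 0 < R.ra := lt_min (by linarith [R.ht1]) (by linarith [R.ht2])
  have h4 : 0 < R.rb := lt_min R.hA R.hB
  unfold Rect.Th
  positivity

theorem Small.arcs {R : Rect} {δ : ℝ} (h : Small R δ) :
    1 ≤ gm R δ ∧ 1 ≤ gn R δ ∧ ga R δ ≤ gb R δ ∧ gb R δ < ga R δ + 2 * (gm R δ + gn R δ) := by
  obtain ⟨-, h1, h2, h3, h4, h5⟩ := h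
  unfold gm gn ga gb
  omega

theorem Ins.mono {R : Rect} {δ : ℝ} {v : Vtx} {r r' : ℤ} (h : Ins R δ v r) (hr : r' ≤ r) :
    Ins R δ v r' := by
  unfold Ins at *
  omega

theorem Ins.vt {R : Rect} {δ : ℝ} {z : ℂ} {r : ℤ} (h : Ins R δ (vz δ z) r) (hr : 0 ≤ r) :
    (0 ≤ (vt R δ z).1 ∧ (vt R δ z).1 ≤ gm R δ) ∧ (0 ≤ (vt R δ z).2 ∧ (vt R δ z).2 ≤ gn R δ) := by
  unfold Ins at h
  unfold H934G.vt gm gn
  simp only
  omega

theorem HH_nonneg' {m n a b : ℤ} (hm : 1 ≤ m) (hn : 1 ≤ n) {v : Vtx} (h1 : 0 ≤ v.1 ∧ v.1 ≤ m)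
    (h2 : 0 ≤ v.2 ∧ v.2 ≤ n) : 0 ≤ HH m n a b v := by
  unfold HH
  have e1 : (0 : ℝ) < (sv m n v a : ℝ) := by
    have := sv_pos hm hn v a
    exact_mod_cast (by omega : (0:ℤ) < sv m n v a)
  have e2 : (0 : ℝ) < (sv m n v b : ℝ) := by
    have := sv_pos hm hn v b
    exact_mod_cast (by omega : (0:ℤ) < sv m n v b)
  have e3 : (0 : ℝ) ≤ (px m v : ℝ) := by
    have := px_pos h1.1 h1.2
    exact_mod_cast (by omega : (0:ℤ) ≤ px m v)
  have e4 : (0 : ℝ) ≤ (py n v : ℝ) := by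
    have := py_pos h2.1 h2.2
    exact_mod_cast (by omega : (0:ℤ) ≤ py n v)
  have e5 : (0 : ℝ) ≤ (sz m n a b : ℝ) := by
    have := sz_pos hm hn a b
    exact_mod_cast (by omega : (0:ℤ) ≤ sz m n a b)
  positivity

/-- aspect ratio -/
theorem aspect {K : ℝ} {R : Rect} (h1 : R.A + R.B ≤ K * R.H) (h2 : R.H ≤ K * (R.A + R.B)) :
    2 * (R.A + R.B) ≤ (⌈2 * K⌉₊ : ℕ) * R.H ∧ 2 * R.H ≤ (⌈2 * K⌉₊ : ℕ) * (R.A + R.B) := by
  have hH := R.hH
  have hA := R.hA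
  have hB := R.hB
  have hK : 2 * K ≤ (⌈2 * K⌉₊ : ℝ) := Nat.le_ceil _
  constructor
  · calc 2 * (R.A + R.B) ≤ 2 * K * R.H := by linarith
      _ ≤ _ := mul_le_mul_of_nonneg_right hK hH.le
  · calc 2 * R.H ≤ 2 * K * (R.A + R.B) := by linarith
      _ ≤ _ := mul_le_mul_of_nonneg_right hK (by linarith)

theorem g7 : St_G7 := by
  intro hGS h0 h1 h2 h3 h4 h5a h5b h5c h6 K
  obtain ⟨c1, C1, hc1, hC1, GS⟩ := hGS ⌈2 * K⌉₊
  obtain ⟨c4, C4, hc4, hC4, G4⟩ := h4 K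
  refine ⟨c1 / 2 * c4 ^ ((1 : ℝ) / 3), C1 * 2 * C4 ^ ((1 : ℝ) / 3), by positivity,
    by positivity, ?_⟩
  intro R hR1 hR2 δ hδ hlim μ hμ z r hz hr h2r
  obtain ⟨ha1, ha2⟩ := aspect hR1 hR2
  have hρ := rd_pos hz
  have hθ := Th_nonneg hz
  have hlim' : Tendsto δ atTop (𝓝[>] 0) :=
    tendsto_nhdsWithin_iff.mpr ⟨hlim, Eventually.of_forall hδ⟩
  have H3 := h3 h1 h2
  constructor
  · -- lower bound
    have hcl : IsClosed {K : NonemptyCompacts ℂ | ((K : Set ℂ) ∩ Metric.closedBall z r).Nonempty} :=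
      NonemptyCompacts.isClosed_inter_nonempty_of_isClosed Metric.isClosed_closedBall
    have key : ENNReal.ofReal (c1 / 2 * c4 ^ ((1 : ℝ) / 3) *
        ((r / R.rd z) ^ ((1 : ℝ) / 4) * R.Th z ^ ((1 : ℝ) / 3))) ≤
        (μ : Measure (NonemptyCompacts ℂ))
          {K : NonemptyCompacts ℂ | ((K : Set ℂ) ∩ Metric.closedBall z r).Nonempty} := by
      apply R.closed_ge hδ hμ hcl
      filter_upwards [hlim'.eventually (h0 R), hlim'.eventually (G4 R hR1 hR2 z hz),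
        hlim'.eventually (h5a R z hz), hlim'.eventually (h5b R z hz r hr h2r),
        hlim'.eventually (h5c R _ ha1 ha2),
        hlim.eventually_lt_const (show (0:ℝ) < r / 12 by positivity)] with i i1 i2 i3 i4 i5 i6
      have hδi := hδ i
      obtain ⟨k1, k2, k3, k4⟩ := i1.arcs
      have f1 : (⌊r / (2 * δ i)⌋ : ℤ) ≤ ⌊r / δ i⌋ := by
        apply Int.floor_le_floor
        apply div_le_div_of_nonneg_left hr.le hδi
        linarith
      have f2 : r / (2 * δ i) < (⌊r / (2 * δ i)⌋ : ℝ) + 1 := Int.lt_floor_add_one _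
      have f3 : 6 < r / (2 * δ i) := by
        rw [lt_div_iff₀ (by positivity)]
        linarith
      have f4 : 3 ≤ ⌊r / (2 * δ i)⌋ := by
        rw [Int.le_floor]
        push_cast
        linarith
      obtain ⟨v1, v2⟩ := Ins.vt i4.1 (by omega)
      have hg := (GS (gm R (δ i)) (gn R (δ i)) (ga R (δ i)) (gb R (δ i)) k1 k2 i5.1 i5.2 k3 k4
        (vt R (δ i) z) v1 v2 (⌊r / (2 * δ i)⌋ - 3) (by omega) (by omega)).1
      have H3' : P2 (R.edges (δ i)) (HitR R (δ i) (vz (δ i) z) (⌊r / (2 * δ i)⌋ - 3)) =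
          P2 (RE 0 (gm R (δ i)) 0 (gn R (δ i))) (HitB (gm R (δ i)) (gn R (δ i)) (ga R (δ i))
            (gb R (δ i)) (vt R (δ i) z) (⌊r / (2 * δ i)⌋ - 3)) :=
        H3 R (δ i) i1 (vz (δ i) z) (⌊r / (2 * δ i)⌋ - 3) (by omega) (i4.1.mono (by omega))
      rw [← H3'] at hg
      set M : ℤ := min (px (gm R (δ i)) (vt R (δ i) z)) (py (gn R (δ i)) (vt R (δ i) z)) with hM
      have hMpos : (0 : ℝ) < (M : ℝ) := by
        have : (0:ℝ) < δ i * (M : ℝ) := lt_of_lt_of_le (by positivity) i3.1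
        exact (mul_pos_iff_of_pos_left hδi).mp this
      refine le_trans ?_ (hg.trans ?_)
      · apply low_num hc1 hc4 (by positivity) hθ _ i2.1
        rw [div_le_iff₀ hρ]
        have e1 : 16 * (((⌊r / (2 * δ i)⌋ - 3 + 1 : ℤ) : ℝ) / (M : ℝ)) * R.rd z =
            16 * ((((⌊r / (2 * δ i)⌋ - 3 + 1 : ℤ) : ℝ) * R.rd z) / (M : ℝ)) := by ring
        have e2 : r / 16 ≤ (((⌊r / (2 * δ i)⌋ - 3 + 1 : ℤ) : ℝ) * R.rd z) / (M : ℝ) := by
          rw [le_div_iff₀ hMpos]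
          have e3 : r / 4 ≤ δ i * ((⌊r / (2 * δ i)⌋ - 3 + 1 : ℤ) : ℝ) := by
            have e4 : r / 2 < δ i * ((⌊r / (2 * δ i)⌋ : ℝ) + 1) := by
              have := mul_lt_mul_of_pos_left f2 hδi
              rwa [show δ i * (r / (2 * δ i)) = r / 2 by field_simp] at this
            push_cast
            linarith
          have e5 : r / 16 * (δ i * M) ≤ (δ i * ((⌊r / (2 * δ i)⌋ - 3 + 1 : ℤ) : ℝ)) * R.rd z := by
            calc r / 16 * (δ i * M) ≤ r / 16 * (2 * R.rd z) :=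
                  mul_le_mul_of_nonneg_left i3.2 (by positivity)
              _ ≤ r / 4 * R.rd z := by nlinarith [mul_pos hr hρ]
              _ ≤ _ := mul_le_mul_of_nonneg_right e3 hρ.le
          have e6 : δ i * (r / 16 * M) ≤ δ i * (((⌊r / (2 * δ i)⌋ - 3 + 1 : ℤ) : ℝ) * R.rd z) := by
            linarith [e5]
          exact le_of_mul_le_mul_left e6 hδi
        rw [e1]
        linarith
      · apply Q_mono
        intro F hF hH
        exact (h6 R (δ i) hδi F z r hr).2 hH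
    exact (ENNReal.ofReal_le_iff_le_toReal (measure_ne_top _ _)).mp key
  · -- upper bound
    set r' : ℝ := min (2 * r) ((r + R.rd z / 2) / 2) with hr'
    have r1 : r < r' := lt_min (by linarith) (by linarith)
    have r2 : r' ≤ 2 * r := min_le_left _ _
    have r3 : 2 * r' < R.rd z := by
      have := min_le_right (2 * r) ((r + R.rd z / 2) / 2)
      linarith
    have r0 : 0 < r' := by linarith
    have hop : IsOpen {K : NonemptyCompacts ℂ | ((K : Set ℂ) ∩ Metric.ball z r').Nonempty} :=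
      NonemptyCompacts.isOpen_inter_nonempty_of_isOpen Metric.isOpen_ball
    have key : (μ : Measure (NonemptyCompacts ℂ))
          {K : NonemptyCompacts ℂ | ((K : Set ℂ) ∩ Metric.ball z r').Nonempty} ≤
        ENNReal.ofReal (C1 * 2 * C4 ^ ((1 : ℝ) / 3) *
        ((r / R.rd z) ^ ((1 : ℝ) / 4) * R.Th z ^ ((1 : ℝ) / 3))) := by
      apply R.open_le hδ hμ hop
      filter_upwards [hlim'.eventually (h0 R), hlim'.eventually (G4 R hR1 hR2 z hz),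
        hlim'.eventually (h5a R z hz), hlim'.eventually (h5b R z hz r' r0 r3),
        hlim'.eventually (h5c R _ ha1 ha2),
        hlim.eventually_lt_const (show (0:ℝ) < r' / 12 by positivity)] with i i1 i2 i3 i4 i5 i6
      have hδi := hδ i
      obtain ⟨k1, k2, k3, k4⟩ := i1.arcs
      have f0 : 0 ≤ ⌊r' / δ i⌋ := Int.floor_nonneg.mpr (by positivity)
      have f1 : (⌊r' / δ i⌋ : ℝ) ≤ r' / δ i := Int.floor_le _
      obtain ⟨v1, v2⟩ := Ins.vt i4.1 (by omega)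
      have hg := (GS (gm R (δ i)) (gn R (δ i)) (ga R (δ i)) (gb R (δ i)) k1 k2 i5.1 i5.2 k3 k4
        (vt R (δ i) z) v1 v2 (⌊r' / δ i⌋ + 3) (by omega) i4.2).2
      have H3' : P2 (R.edges (δ i)) (HitR R (δ i) (vz (δ i) z) (⌊r' / δ i⌋ + 3)) =
          P2 (RE 0 (gm R (δ i)) 0 (gn R (δ i))) (HitB (gm R (δ i)) (gn R (δ i)) (ga R (δ i))
            (gb R (δ i)) (vt R (δ i) z) (⌊r' / δ i⌋ + 3)) :=
        H3 R (δ i) i1 (vz (δ i) z) (⌊r' / δ i⌋ + 3) (by omega) i4.1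
      rw [← H3'] at hg
      set M : ℤ := min (px (gm R (δ i)) (vt R (δ i) z)) (py (gn R (δ i)) (vt R (δ i) z)) with hM
      have hMpos : (0 : ℝ) < (M : ℝ) := by
        have : (0:ℝ) < δ i * (M : ℝ) := lt_of_lt_of_le (by positivity) i3.1
        exact (mul_pos_iff_of_pos_left hδi).mp this
      refine le_trans ?_ (hg.trans ?_)
      · apply Q_mono
        intro F hF hH
        refine (h6 R (δ i) hδi F z r' r0).1 ?_
        obtain ⟨w, hw1, hw2⟩ := hH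
        exact ⟨w, hw1, Metric.ball_subset_closedBall hw2⟩
      · have hfl : (0:ℝ) ≤ ((⌊r' / δ i⌋ + 3 + 1 : ℤ) : ℝ) := by
          exact_mod_cast (by omega : (0:ℤ) ≤ ⌊r' / δ i⌋ + 3 + 1)
        apply up_num hC1 hC4 (by positivity) (by positivity) hθ
          (HH_nonneg' k1 k2 v1 v2) _ i2.2
        rw [div_le_iff₀ hMpos]
        have e3 : δ i * ((⌊r' / δ i⌋ + 3 + 1 : ℤ) : ℝ) ≤ 2 * r' := by
          have e4 : δ i * (⌊r' / δ i⌋ : ℝ) ≤ r' := by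
            have := mul_le_mul_of_nonneg_left f1 hδi.le
            rwa [show δ i * (r' / δ i) = r' by field_simp] at this
          push_cast
          linarith
        have e5 : 2 * r' ≤ 16 * (r / R.rd z) * (δ i * M) := by
          calc 2 * r' ≤ 4 * r := by linarith
            _ ≤ 16 * (r / R.rd z) * (R.rd z / 2) := by
                rw [show 16 * (r / R.rd z) * (R.rd z / 2) = 8 * r by field_simp; ring]
                linarith
            _ ≤ _ := mul_le_mul_of_nonneg_left i3.1 (by positivity)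
        have e6 : δ i * ((⌊r' / δ i⌋ + 3 + 1 : ℤ) : ℝ) ≤ δ i * (16 * (r / R.rd z) * M) := by
          linarith [e3, e5]
        exact le_of_mul_le_mul_left e6 hδi
    apply ENNReal.toReal_le_of_le_ofReal (by positivity)
    refine (measure_mono ?_).trans key
    rintro K ⟨w, hw1, hw2⟩
    refine ⟨w, hw1, ?_⟩
    rw [Metric.mem_closedBall] at hw2
    rw [Metric.mem_ball]
    linarith

end H934G
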