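import Pool.Agent.H934R4.GL.G0
import Pool.Agent.H934R4.GL.G1
import Pool.Agent.H934R4.GL.G2
import Pool.Agent.H934R4.GL.G3
import Pool.Agent.H934R4.GL.G4
import Pool.Agent.H934R4.GL.G5
import Pool.Agent.H934R4.GL.G6
import Pool.Agent.H934R4.GL.G7
import Pool.Agent.H731R5.Gr.Sc

/-!
Green function of every subsequential limit of the exploration path: assembly.
-/

set_option autoImplicit false

namespace H934G

open H974 hiding bd
open H731C H731R H731A H731G H934E Finset MeasureTheory TopologicalSpace Filter Topology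

theorem st_gs (hA : H934F.St_A) (hL : H934F.St_L) : St_GS := by
  intro K
  obtain ⟨c, C, hc, hC, h⟩ := H731G.green_scale hA hL K
  exact ⟨c, C, hc, hC, fun m n a b hm hn h1 h2 hab hba v hv1 hv2 r hr h2r =>
    h m n a b r v hm hn h1 h2 hab hba hv1 hv2 hr h2r⟩

theorem st_gl (hA : H934F.St_A) (hL : H934F.St_L) : St_GL :=
  g7 (st_gs hA hL) g0 g1 g2 g3 g4 g5a g5b g5c g6

end H934G
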