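import Pool.Agent.H934R4.GL.Props

/-! G0: small meshes. -/

set_option autoImplicit false

namespace H934G

open H974 hiding bd
open H731C H731R H731A H731G H934E Finset MeasureTheory TopologicalSpace Filter Topology

theorem g0 : St_G0 := by
  intro R
  have hA := R.hA
  have hB := R.hB
  have hH := R.hH
  have h1 : 0 < R.A + R.t := by linarith [R.ht1]
  have h2 : 0 < R.B - R.t := by linarith [R.ht2]
  have hε : 0 < min (min (min R.A R.B) (min ((R.A + R.t) / 2) (R.B - R.t))) (R.H / 3) := by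
    positivity
  filter_upwards [Ioo_mem_nhdsGT hε] with δ hδ
  obtain ⟨hδ0, hδ1⟩ := hδ
  rw [lt_min_iff, lt_min_iff, lt_min_iff, lt_min_iff] at hδ1
  obtain ⟨⟨⟨hA1, hB1⟩, hAt, hBt⟩, hH1⟩ := hδ1
  refine ⟨hδ0, ?_, ?_, ?_, ?_, ?_⟩
  · unfold Rect.x0
    have h3 : ⌊-(R.A / δ)⌋ < -1 := by
      rw [Int.floor_lt]
      push_cast
      have : 1 < R.A / δ := by rw [lt_div_iff₀ hδ0]; linarith
      linarith
    omega
  · unfold Rect.x1
    have h3 : 1 < ⌈R.B / δ⌉ := by
      rw [Int.lt_ceil]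
      push_cast
      rw [lt_div_iff₀ hδ0]
      linarith
    omega
  · unfold Rect.x0 Rect.tc
    have h3 := Int.floor_le (-(R.A / δ))
    have h4 := Int.lt_floor_add_one (R.t / δ)
    have h5 : 2 < R.A / δ + R.t / δ := by
      rw [← add_div, lt_div_iff₀ hδ0]
      linarith
    have h6 : ((⌊-(R.A / δ)⌋ + 1 : ℤ) : ℝ) < ((⌊R.t / δ⌋ : ℤ) : ℝ) := by
      push_cast
      linarith
    exact_mod_cast h6
  · unfold Rect.tc Rect.x1
    have h3 := Int.floor_le (R.t / δ)
    have h4 := Int.le_ceil (R.B / δ)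
    have h5 : 1 < R.B / δ - R.t / δ := by
      rw [← sub_div, lt_div_iff₀ hδ0]
      linarith
    have h6 : ((⌊R.t / δ⌋ : ℤ) : ℝ) < ((⌈R.B / δ⌉ - 1 : ℤ) : ℝ) := by
      push_cast
      linarith
    exact_mod_cast h6
  · unfold Rect.y1
    have h3 : 3 < ⌈R.H / δ⌉ := by
      rw [Int.lt_ceil]
      push_cast
      rw [lt_div_iff₀ hδ0]
      linarith
    omega

end H934G
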