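import Pool.Agent.H731R5.Gr.Defs2
import Pool.Agent.H934R2.Expl.Whole

/-!
Statements (as propositions, nothing is assumed) of the tasks: Green function of the limits of the
trace of the exploration path, from the Green function of the discrete rectangles.
-/

set_option autoImplicit false

namespace H934G

open H974 hiding bd
open H731C H731R H731A H731G H934E Finset MeasureTheory TopologicalSpace Filter Topology

/-! ### Discrete domain in the coordinates of `H731G` -/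

/-- Translation of the edges. -/
noncomputable def sh (k : ℤ) (F : Finset Edg) : Finset Edg := F.image (fun e => (e.1 - k, e.2))

/-- Width, height, indices of `b` and `a`. -/
noncomputable def gm (R : Rect) (δ : ℝ) : ℤ := R.x1 δ - R.x0 δ
noncomputable def gn (R : Rect) (δ : ℝ) : ℤ := R.y1 δ
noncomputable def gb (R : Rect) (δ : ℝ) : ℤ := -R.x0 δ
noncomputable def ga (R : Rect) (δ : ℝ) : ℤ := -(R.y1 δ + (R.tc δ - R.x0 δ))

/-- The mesh is small enough. -/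
def Small (R : Rect) (δ : ℝ) : Prop :=
  0 < δ ∧ R.x0 δ < 0 ∧ 0 < R.x1 δ ∧ R.x0 δ < R.tc δ ∧ R.tc δ < R.x1 δ ∧ 1 < R.y1 δ

/-- The exploration path of the rectangle passes at `v`. -/
def OnR (R : Rect) (δ : ℝ) (v : Vtx) (F : Finset Edg) : Prop :=
  v ∈ R.clu δ F ∧ ∃ s : Bool × Bool, cface v s ∈ R.dclu δ F

/-- It passes at distance at most `r` from `v`. -/
def HitR (R : Rect) (δ : ℝ) (v : Vtx) (r : ℤ) (F : Finset Edg) : Prop :=
  ∃ u : Vtx, (|u.1 - v.1| ≤ r ∧ |u.2 - v.2| ≤ r) ∧ OnR R δ u F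

/-- The box of radius `r` around `v` is inside. -/
def Ins (R : Rect) (δ : ℝ) (v : Vtx) (r : ℤ) : Prop :=
  (R.x0 δ < v.1 - r ∧ v.1 + r < R.x1 δ) ∧ (0 < v.2 - r ∧ v.2 + r < R.y1 δ)

/-- The vertex next to `z`. -/
noncomputable def vz (δ : ℝ) (z : ℂ) : Vtx := (⌊z.re / δ⌋, ⌊z.im / δ⌋ - 1)

/-- The same vertex in the coordinates of `H731G`. -/
noncomputable def vt (R : Rect) (δ : ℝ) (z : ℂ) : Vtx := ((vz δ z).1 - R.x0 δ, (vz δ z).2)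

end H934G

namespace H934E.Rect

/-- Distance of `z` to the vertical and to the horizontal sides. -/
noncomputable def rx (R : Rect) (z : ℂ) : ℝ := min (z.re + R.A) (R.B - z.re)
noncomputable def ry (R : Rect) (z : ℂ) : ℝ := min z.im (R.H - z.im)

/-- Distance of `z` to the boundary. -/
noncomputable def rd (R : Rect) (z : ℂ) : ℝ := min (R.rx z) (R.ry z)

/-- Distance of `a` and of `b` to the corners of their side. -/
noncomputable def ra (R : Rect) : ℝ := min (R.A + R.t) (R.B - R.t)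
noncomputable def rb (R : Rect) : ℝ := min R.A R.B

/-- The point `a`. -/
noncomputable def pa (R : Rect) : ℂ := ⟨R.t, R.H⟩

/-- Up to constants which depend on the aspect ratio: the sine of the argument of `φ z`, where `φ`
maps `D` conformally to the upper half plane, `a` to infinity and `b` to `0`. -/
noncomputable def Th (R : Rect) (z : ℂ) : ℝ :=
  R.rx z * R.ry z * R.H ^ 2 /
    ((‖z - R.pa‖ * (‖z - R.pa‖ + R.ra)) * (‖z‖ * (‖z‖ + R.rb)))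

end H934E.Rect

namespace H934G

open H974 hiding bd
open H731C H731R H731A H731G H934E Finset MeasureTheory TopologicalSpace Filter Topology

/-! ### Input -/

/-- Green function of the discrete rectangles at all scales (helper731). -/
def St_GS : Prop := ∀ K : ℕ, ∃ c C : ℝ, 0 < c ∧ 0 < C ∧ ∀ (m n a b : ℤ), 1 ≤ m → 1 ≤ n →
  m ≤ K * n → n ≤ K * m → a ≤ b → b < a + 2 * (m + n) →
  ∀ v : Vtx, (0 ≤ v.1 ∧ v.1 ≤ m) → (0 ≤ v.2 ∧ v.2 ≤ n) → ∀ r : ℤ, 0 ≤ r →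
    2 * r ≤ min (px m v) (py n v) →
    c * ((((r + 1 : ℤ) : ℝ) / ((min (px m v) (py n v) : ℤ) : ℝ)) ^ ((1 : ℝ) / 4) *
        HH m n a b v ^ ((1 : ℝ) / 3)) ≤ P2 (RE 0 m 0 n) (HitB m n a b v r) ∧
      P2 (RE 0 m 0 n) (HitB m n a b v r) ≤
        C * ((((r + 1 : ℤ) : ℝ) / ((min (px m v) (py n v) : ℤ) : ℝ)) ^ ((1 : ℝ) / 4) *
          HH m n a b v ^ ((1 : ℝ) / 3))

/-! ### Tasks -/

/-- G0: small meshes. -/
def St_G0 : Prop := ∀ R : Rect, ∀ᶠ δ in 𝓝[>] (0 : ℝ), Small R δ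

/-- G1: the cluster of the first arc. -/
def St_G1 : Prop := ∀ (R : Rect) (δ : ℝ), Small R δ → ∀ F : Finset Edg, F ⊆ R.edges δ →
  ∀ v : Vtx, (R.x0 δ ≤ v.1 ∧ v.1 ≤ R.x1 δ) → (0 ≤ v.2 ∧ v.2 ≤ R.y1 δ) →
    (v ∈ R.clu δ F ↔
      VA (gm R δ) (gn R δ) (ga R δ) (gb R δ) (v.1 - R.x0 δ, v.2) (sh (R.x0 δ) F))

/-- G2: the dual cluster of the second arc, inner faces. -/
def St_G2 : Prop := ∀ (R : Rect) (δ : ℝ), Small R δ → ∀ F : Finset Edg, F ⊆ R.edges δ →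
  ∀ f : Vtx, (R.x0 δ ≤ f.1 ∧ f.1 < R.x1 δ) → (0 ≤ f.2 ∧ f.2 < R.y1 δ) →
    (f ∈ R.dclu δ F ↔
      FB (gm R δ) (gn R δ) (ga R δ) (gb R δ) (f.1 - R.x0 δ, f.2) (sh (R.x0 δ) F))

/-- G3: the probabilities are the same. -/
def St_G3 : Prop := St_G1 → St_G2 → ∀ (R : Rect) (δ : ℝ), Small R δ → ∀ (v : Vtx) (r : ℤ),
  0 ≤ r → Ins R δ v r →
    P2 (R.edges δ) (HitR R δ v r) =
      P2 (RE 0 (gm R δ) 0 (gn R δ))
        (HitB (gm R δ) (gn R δ) (ga R δ) (gb R δ) (v.1 - R.x0 δ, v.2) r)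

/-- G4: asymptotics of the explicit expression. -/
def St_G4 : Prop := ∀ K : ℝ, ∃ c C : ℝ, 0 < c ∧ 0 < C ∧ ∀ R : Rect,
  R.A + R.B ≤ K * R.H → R.H ≤ K * (R.A + R.B) → ∀ z ∈ R.D, ∀ᶠ δ in 𝓝[>] (0 : ℝ),
    c * R.Th z ≤ HH (gm R δ) (gn R δ) (ga R δ) (gb R δ) (vt R δ z) ∧
      HH (gm R δ) (gn R δ) (ga R δ) (gb R δ) (vt R δ z) ≤ C * R.Th z

/-- G5: asymptotics of the distances. -/
def St_G5a : Prop := ∀ R : Rect, ∀ z ∈ R.D, ∀ᶠ δ in 𝓝[>] (0 : ℝ),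
  R.rd z / 2 ≤ δ * ((min (px (gm R δ) (vt R δ z)) (py (gn R δ) (vt R δ z)) : ℤ) : ℝ) ∧
    δ * ((min (px (gm R δ) (vt R δ z)) (py (gn R δ) (vt R δ z)) : ℤ) : ℝ) ≤ 2 * R.rd z

/-- Position of the vertex. -/
def St_G5b : Prop := ∀ R : Rect, ∀ z ∈ R.D, ∀ r : ℝ, 0 < r → 2 * r < R.rd z →
  ∀ᶠ δ in 𝓝[>] (0 : ℝ), Ins R δ (vz δ z) (⌊r / δ⌋ + 3) ∧
    2 * (⌊r / δ⌋ + 3) ≤ min (px (gm R δ) (vt R δ z)) (py (gn R δ) (vt R δ z))

/-- Aspect ratio. -/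
def St_G5c : Prop := ∀ R : Rect, ∀ K : ℕ, 2 * (R.A + R.B) ≤ K * R.H → 2 * R.H ≤ K * (R.A + R.B) →
  ∀ᶠ δ in 𝓝[>] (0 : ℝ), gm R δ ≤ K * gn R δ ∧ gn R δ ≤ K * gm R δ

/-- G6: the trace and the vertices on the path. -/
def St_G6 : Prop := ∀ (R : Rect) (δ : ℝ), 0 < δ → ∀ (F : Finset Edg) (z : ℂ) (r : ℝ), 0 < r →
  ((R.path δ F ∩ Metric.closedBall z r).Nonempty → HitR R δ (vz δ z) (⌊r / δ⌋ + 3) F) ∧
  (HitR R δ (vz δ z) (⌊r / (2 * δ)⌋ - 3) F → (R.path δ F ∩ Metric.closedBall z r).Nonempty)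

/-- Green function of the limits. -/
def St_GL : Prop := ∀ K : ℝ, ∃ c C : ℝ, 0 < c ∧ 0 < C ∧ ∀ (R : Rect),
  R.A + R.B ≤ K * R.H → R.H ≤ K * (R.A + R.B) →
  ∀ (δ : ℕ → ℝ) (hδ : ∀ i, 0 < δ i), Tendsto δ atTop (𝓝 0) →
  ∀ μ : ProbabilityMeasure (NonemptyCompacts ℂ),
    Tendsto (fun i => R.law (hδ i)) atTop (𝓝 μ) →
  ∀ (z : ℂ) (r : ℝ), z ∈ R.D → 0 < r → 2 * r < R.rd z →
    c * ((r / R.rd z) ^ ((1 : ℝ) / 4) * R.Th z ^ ((1 : ℝ) / 3)) ≤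
        (μ : Measure (NonemptyCompacts ℂ)).real
          {K : NonemptyCompacts ℂ | ((K : Set ℂ) ∩ Metric.closedBall z r).Nonempty} ∧
      (μ : Measure (NonemptyCompacts ℂ)).real
          {K : NonemptyCompacts ℂ | ((K : Set ℂ) ∩ Metric.closedBall z r).Nonempty} ≤
        C * ((r / R.rd z) ^ ((1 : ℝ) / 4) * R.Th z ^ ((1 : ℝ) / 3))

/-- G7: the final step. -/
def St_G7 : Prop := St_GS → St_G0 → St_G1 → St_G2 → St_G3 → St_G4 → St_G5a → St_G5b → St_G5c →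
  St_G6 → St_GL

end H934G
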